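import Pool.Agent.V1172.BK.Half

/-!
Cartan's uniqueness theorem for convex open subsets of `ℂ` contained in a half plane.
-/

set_option autoImplicit false

open Set Filter Topology Metric Asymptotics

namespace Pool.Agent.V1172.BK

/-- Maps from a disc into the half plane `Re (c z) > 0` fixing the centre are bounded on the
concentric disc of half radius. -/
theorem half_bound {c p : ℂ} {ρ : ℝ} (hρ : 0 < ρ) (hc : c ≠ 0) (hcp : 0 < (c * p).re) (g : ℂ → ℂ)
    (hg : DifferentiableOn ℂ g (ball p ρ)) (hm : ∀ z ∈ ball p ρ, 0 ≤ (c * g z).re) (hgp : g p = p) :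
    ∀ z ∈ ball p (ρ / 2), ‖g z - p‖ ≤ 2 * ‖p‖ := by
  intro z hz
  have hz' : z ∈ ball p ρ := ball_subset_ball (by linarith) hz
  let h : ℂ → ℂ := fun z => (c * g z - c * p) / (c * g z + (starRingEnd ℂ) (c * p))
  have hne : ∀ z ∈ ball p ρ, c * g z + (starRingEnd ℂ) (c * p) ≠ 0 :=
    fun z hz => add_conj_ne (hm z hz) hcp
  have hhd : DifferentiableOn ℂ h (ball p ρ) := by
    intro w hw
    have h1 : DifferentiableAt ℂ g w := (hg w hw).differentiableAt (isOpen_ball.mem_nhds hw)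
    exact (DifferentiableAt.fun_div ((h1.const_mul _).sub_const _) ((h1.const_mul _).add_const _)
      (hne w hw)).differentiableWithinAt
  have hhp : h p = 0 := by simp [h, hgp]
  have hmaps : MapsTo h (ball p ρ) (closedBall (h p) 1) := by
    intro w hw
    rw [hhp, mem_closedBall_zero_iff]
    simp only [h]
    rw [norm_div, div_le_one (norm_pos_iff.2 (hne w hw))]
    apply le_of_sq_le_sq _ (norm_nonneg _)
    rw [normSq_sub_add]
    have : 0 ≤ 4 * (c * g w).re * (c * p).re := by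
      have := hm w hw
      positivity
    linarith
  have h1 := Complex.dist_le_div_mul_dist_of_mapsTo_ball hhd hmaps hz'
  rw [hhp, dist_zero_right] at h1
  have h2 : ‖h z‖ ≤ 1 / 2 := by
    refine h1.trans ?_
    rw [mem_ball] at hz
    rw [one_div, inv_mul_le_iff₀ hρ]
    linarith
  have h3 : h z * (c * g z + (starRingEnd ℂ) (c * p)) = c * g z - c * p := by
    simp only [h]
    rw [div_mul_cancel₀ _ (hne z hz')]
  -- `c (g z - p) (1 - h z) = h z (conj (cp) + cp)`
  have h4 : c * (g z - p) * (1 - h z) = h z * ((starRingEnd ℂ) (c * p) + c * p) := by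
    linear_combination -h3
  have h5 : ‖c‖ * ‖g z - p‖ * ‖1 - h z‖ ≤ 1 / 2 * (2 * (‖c‖ * ‖p‖)) := by
    rw [← norm_mul, ← norm_mul, h4, norm_mul]
    refine mul_le_mul h2 ?_ (norm_nonneg _) (by norm_num)
    refine (norm_add_le _ _).trans ?_
    rw [RCLike.norm_conj, norm_mul]
    linarith
  have h6 : 1 / 2 ≤ ‖1 - h z‖ := by
    have := norm_sub_norm_le (1 : ℂ) (h z)
    rw [norm_one] at this
    linarith
  have hcn : 0 < ‖c‖ := norm_pos_iff.2 hc
  have h7 : ‖c‖ * ‖g z - p‖ * (1 / 2) ≤ ‖c‖ * ‖p‖ := by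
    refine (mul_le_mul_of_nonneg_left h6 (by positivity)).trans (h5.trans (le_of_eq ?_))
    ring
  have h8 : ‖c‖ * ‖g z - p‖ ≤ ‖c‖ * (2 * ‖p‖) := by linarith
  exact le_of_mul_le_mul_left h8 hcn

section

variable {Ω : Set ℂ} (hΩ : IsOpen Ω) (hconv : Convex ℝ Ω) {c p : ℂ} (hc : c ≠ 0) (hp : p ∈ Ω)
  (hhalf : ∀ z ∈ Ω, 0 < (c * z).re) {f : ℂ → ℂ} (hf : DifferentiableOn ℂ f Ω)
  (hm : MapsTo f Ω Ω) (hfp : f p = p)

include hf hm hfp in
theorem iter_facts (n : ℕ) : DifferentiableOn ℂ (f^[n]) Ω ∧ MapsTo (f^[n]) Ω Ω ∧ f^[n] p = p := by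
  induction n with
  | zero => exact ⟨differentiableOn_id, mapsTo_id _, rfl⟩
  | succ n ih =>
    refine ⟨?_, hm.iterate _, ?_⟩
    · rw [Function.iterate_succ']
      exact hf.comp ih.1 ih.2.1
    · exact Function.iterate_fixed hfp _

include hΩ hc hp hhalf hf hm hfp in
theorem cartan_deriv_le : ‖deriv f p‖ ≤ 1 := by
  obtain ⟨ρ, hρ, hρΩ⟩ := Metric.isOpen_iff.1 hΩ p hp
  by_contra hgt
  push Not at hgt
  have hder : HasDerivAt f (deriv f p) p :=
    ((hf p hp).differentiableAt (hΩ.mem_nhds hp)).hasDerivAt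
  have hbound : ∀ n : ℕ, ‖deriv f p‖ ^ n ≤ 2 * ‖p‖ / (ρ / 2) := by
    intro n
    obtain ⟨h1, h2, h3⟩ := iter_facts hf hm hfp n
    have h4 : HasDerivAt (f^[n]) (deriv f p ^ n) p := HasDerivAt.iterate p hder hfp n
    have h5 := half_bound hρ hc (hhalf p hp) (f^[n]) (h1.mono hρΩ)
      (fun z hz => (hhalf _ (h2 (hρΩ hz))).le) h3
    have h6 : MapsTo (f^[n]) (ball p (ρ / 2)) (closedBall (f^[n] p) (2 * ‖p‖)) := by
      intro z hz
      rw [h3, mem_closedBall_iff_norm]
      exact h5 z hz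
    have h7 := Complex.norm_deriv_le_div_of_mapsTo_ball
      (h1.mono ((ball_subset_ball (by linarith)).trans hρΩ)) h6 (by linarith)
    rw [h4.deriv, norm_pow] at h7
    exact h7
  obtain ⟨n, hn⟩ := pow_unbounded_of_one_lt (2 * ‖p‖ / (ρ / 2)) hgt
  exact absurd (hbound n) (not_le.2 hn)

include hΩ hconv hc hp hhalf hf hm hfp in
theorem cartan_unique (hd : deriv f p = 1) : ∀ z ∈ Ω, f z = z := by
  obtain ⟨ρ, hρ, hρΩ⟩ := Metric.isOpen_iff.1 hΩ p hp
  have hder : HasDerivAt f 1 p := by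
    rw [← hd]
    exact ((hf p hp).differentiableAt (hΩ.mem_nhds hp)).hasDerivAt
  let F : ℂ → ℂ := fun z => f z - z
  have hFan : AnalyticAt ℂ F p := by
    have h1 : AnalyticAt ℂ f p := hf.analyticAt (hΩ.mem_nhds hp)
    exact h1.sub analyticAt_id
  -- it suffices that `F` vanishes near `p`
  by_cases hF0 : ∀ᶠ z in 𝓝 p, F z = 0
  · have han1 : AnalyticOnNhd ℂ f Ω := hf.analyticOnNhd hΩ
    have han2 : AnalyticOnNhd ℂ (fun z : ℂ => z) Ω := fun _ _ => analyticAt_id
    have h1 : f =ᶠ[𝓝 p] fun z => z := by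
      filter_upwards [hF0] with z hz
      exact sub_eq_zero.1 hz
    exact fun z hz => han1.eqOn_of_preconnected_of_eventuallyEq han2 hconv.isPreconnected hp h1 hz
  exfalso
  have hord : analyticOrderAt F p ≠ ⊤ := by
    intro h
    exact hF0 (analyticOrderAt_eq_top.1 h)
  obtain ⟨G, hG, hGp, hFG⟩ := (hFan.analyticOrderAt_ne_top).1 hord
  set k : ℕ := analyticOrderNatAt F p with hk
  have hFp : F p = 0 := by simp [F, hfp]
  have hk1 : 1 ≤ k := by
    rcases Nat.eq_zero_or_pos k with h0 | h0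
    · exfalso
      have h1 := hFG.self_of_nhds
      rw [h0, hFp] at h1
      simp at h1
      exact hGp h1.symm
    · exact h0
  -- the limits
  have hslope : ∀ n : ℕ, Tendsto (fun z => (f^[n] z - p) / (z - p)) (𝓝[≠] p) (𝓝 1) := by
    intro n
    have h4 : HasDerivAt (f^[n]) 1 p := by
      have := HasDerivAt.iterate p hder hfp n
      rwa [one_pow] at this
    have h5 := (hasDerivAt_iff_tendsto_slope.1 h4)
    refine h5.congr' ?_
    filter_upwards [self_mem_nhdsWithin] with z hz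
    rw [slope_def_field, (iter_facts hf hm hfp n).2.2]
  have hlim : ∀ n : ℕ, Tendsto (fun z => (f^[n] z - z) / (z - p) ^ k) (𝓝[≠] p)
      (𝓝 ((n : ℂ) * G p)) := by
    intro n
    induction n with
    | zero => simp
    | succ n ih =>
      have hcont : Tendsto (f^[n]) (𝓝[≠] p) (𝓝 p) := by
        obtain ⟨h1, h2, h3⟩ := iter_facts hf hm hfp n
        have h4 : ContinuousAt (f^[n]) p :=
          ((h1 p hp).differentiableAt (hΩ.mem_nhds hp)).continuousAt
        have h5 : Tendsto (f^[n]) (𝓝 p) (𝓝 (f^[n] p)) := h4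
        rw [h3] at h5
        exact h5.mono_left nhdsWithin_le_nhds
      have h1 : Tendsto (fun z => ((f^[n] z - p) / (z - p)) ^ k * G (f^[n] z)) (𝓝[≠] p)
          (𝓝 (1 ^ k * G p)) :=
        ((hslope n).pow k).mul (hG.continuousAt.tendsto.comp hcont)
      have h2 := h1.add ih
      have h3 : 1 ^ k * G p + (n : ℂ) * G p = ((n + 1 : ℕ) : ℂ) * G p := by
        push_cast; ring
      rw [h3] at h2
      refine h2.congr' ?_
      filter_upwards [self_mem_nhdsWithin, hcont.eventually hFG] with z hz hz2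
      have hzp : z - p ≠ 0 := sub_ne_zero.2 hz
      have h6 : f^[n + 1] z = f (f^[n] z) := Function.iterate_succ_apply' f n z
      have h7 : F (f^[n] z) = (f^[n] z - p) ^ k * G (f^[n] z) := by
        rw [hz2, smul_eq_mul]
      have h8 : f (f^[n] z) = (f^[n] z - p) ^ k * G (f^[n] z) + f^[n] z := by
        rw [← h7]; simp [F]
      rw [h6, h8, div_pow]
      field_simp
      ring
  -- the upper bound
  have hupper : ∀ n : ℕ, (n : ℝ) * ‖G p‖ ≤ (2 * ‖p‖ + ρ / 2) * (1 / (ρ / 2)) ^ k := by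
    intro n
    obtain ⟨h1, h2, h3⟩ := iter_facts hf hm hfp n
    have h5 := half_bound hρ hc (hhalf p hp) (f^[n]) (h1.mono hρΩ)
      (fun z hz => (hhalf _ (h2 (hρΩ hz))).le) h3
    have hsub : ball p (ρ / 2) ⊆ Ω := (ball_subset_ball (by linarith)).trans hρΩ
    let Hn : ℂ → ℂ := fun z => f^[n] z - z
    have hHd : DifferentiableOn ℂ Hn (ball p (ρ / 2)) := (h1.mono hsub).sub differentiableOn_id
    have hHp : Hn p = 0 := by simp [Hn, h3]
    have hHm : MapsTo Hn (ball p (ρ / 2)) (closedBall (Hn p) (2 * ‖p‖ + ρ / 2)) := by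
      intro z hz
      rw [hHp, mem_closedBall_zero_iff]
      have h6 := h5 z hz
      have h7 : ‖z - p‖ < ρ / 2 := mem_ball_iff_norm.1 hz
      have h8 : Hn z = (f^[n] z - p) - (z - p) := by simp only [Hn]; ring
      rw [h8]
      exact (norm_sub_le _ _).trans (by linarith)
    have hO : (fun z => Hn z - Hn p) =o[𝓝 p] fun w => ‖w - p‖ ^ (k - 1) := by
      rw [hHp]
      simp only [sub_zero]
      -- `Hn = O((z-p)^k)`
      have hb : ∀ᶠ z in 𝓝[≠] p, ‖(f^[n] z - z) / (z - p) ^ k‖ ≤ ‖(n : ℂ) * G p‖ + 1 := by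
        have h9 := (hlim n).norm
        exact (h9.eventually (gt_mem_nhds (lt_add_one _))).mono fun z hz => le_of_lt hz
      have hb2 : ∀ᶠ z in 𝓝 p, ‖Hn z‖ ≤ (‖(n : ℂ) * G p‖ + 1) * ‖z - p‖ ^ k := by
        rw [eventually_nhdsWithin_iff] at hb
        filter_upwards [hb] with z hz
        by_cases hzp : z = p
        · rw [hzp, hHp, norm_zero]
          positivity
        · have h10 := hz hzp
          have hpos : 0 < ‖z - p‖ ^ k := pow_pos (norm_pos_iff.2 (sub_ne_zero.2 hzp)) k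
          rw [norm_div, norm_pow, div_le_iff₀ hpos] at h10
          exact h10
      rw [isLittleO_iff]
      intro ε hε
      have hsmall : ∀ᶠ z in 𝓝 p, (‖(n : ℂ) * G p‖ + 1) * ‖z - p‖ < ε := by
        have hcont : ContinuousAt (fun z : ℂ => (‖(n : ℂ) * G p‖ + 1) * ‖z - p‖) p := by fun_prop
        have h11 : (fun z : ℂ => (‖(n : ℂ) * G p‖ + 1) * ‖z - p‖) p < ε := by simpa using hε
        exact hcont.eventually_lt continuousAt_const h11
      filter_upwards [hb2, hsmall] with z hz1 hz2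
      refine hz1.trans ?_
      rw [norm_pow, norm_norm]
      have h12 : ‖z - p‖ ^ k = ‖z - p‖ * ‖z - p‖ ^ (k - 1) := by
        rw [← pow_succ', Nat.sub_add_cancel hk1]
      rw [h12, ← mul_assoc]
      exact mul_le_mul_of_nonneg_right hz2.le (by positivity)
    have hS : ∀ z ∈ ball p (ρ / 2), ‖Hn z‖ ≤ (2 * ‖p‖ + ρ / 2) * (‖z - p‖ / (ρ / 2)) ^ k := by
      intro z hz
      have := Complex.dist_le_mul_div_pow_of_mapsTo_ball_of_isLittleO hHd hHm hO hz
      rw [hHp, dist_zero_right, dist_eq_norm, Nat.sub_add_cancel hk1] at this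
      exact this
    have hev : ∀ᶠ z in 𝓝[≠] p, ‖(f^[n] z - z) / (z - p) ^ k‖ ≤
        (2 * ‖p‖ + ρ / 2) * (1 / (ρ / 2)) ^ k := by
      have hnb : ball p (ρ / 2) ∈ 𝓝[≠] p := mem_nhdsWithin_of_mem_nhds (ball_mem_nhds _ (by linarith))
      filter_upwards [hnb, self_mem_nhdsWithin] with z hz hzp
      have hpos : 0 < ‖z - p‖ ^ k := pow_pos (norm_pos_iff.2 (sub_ne_zero.2 hzp)) k
      rw [norm_div, norm_pow, div_le_iff₀ hpos]
      refine (hS z hz).trans (le_of_eq ?_)
      have h13 : ‖z - p‖ / (ρ / 2) = (1 / (ρ / 2)) * ‖z - p‖ := by ring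
      rw [h13, mul_pow]
      ring
    have := le_of_tendsto (hlim n).norm hev
    rw [norm_mul, Complex.norm_natCast] at this
    exact this
  have hGpos : 0 < ‖G p‖ := norm_pos_iff.2 hGp
  obtain ⟨n, hn⟩ := exists_nat_gt ((2 * ‖p‖ + ρ / 2) * (1 / (ρ / 2)) ^ k / ‖G p‖)
  rw [div_lt_iff₀ hGpos] at hn
  exact absurd (hupper n) (not_le.2 hn)

end

end Pool.Agent.V1172.BK
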