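import Pool.Agent.V1172.BK.Half

/-!
The two rigidity steps in the half plane model.
-/

set_option autoImplicit false

open Set Filter Topology Metric

namespace Pool.Agent.V1172.BK

theorem claimA (U : ℂ → ℂ → ℂ) (y0 : ℂ) (hy0 : y0 ∈ Hp)
    (hsymm : ∀ x ∈ Hp, ∀ y ∈ Hp, U x y = U y x)
    (hcomp : ∀ Y : ℂ → ℂ, DifferentiableOn ℂ Y Hp → (∀ x ∈ Hp, Y x ∈ Hp) →
      DifferentiableOn ℂ (fun x => U x (Y x)) Hp)
    (hpos : ∀ x ∈ Hp, ∀ y ∈ Hp, 0 ≤ (U x y).re)
    (hlim : ∀ Y : ℂ → ℂ, (∀ x ∈ Hp, Y x ∈ Hp) → (∃ C : ℝ, 0 < C ∧ ∀ x ∈ Hp, ‖Y x - y0‖ ≤ C / ‖x‖) →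
      Tendsto (fun r : ℝ => r * ‖U r (Y r) - r - Y r‖) atTop (𝓝 0)) :
    ∀ x ∈ Hp, ∀ y ∈ Hp, U x y = x + y := by
  -- the behaviour of a function `g r = r + O(1)`
  have hratio : ∀ (g : ℂ → ℂ) (K : ℝ), (∀ᶠ r : ℝ in atTop, ‖g r - r‖ ≤ K) →
      Tendsto (fun r : ℝ => (g r).re / r) atTop (𝓝 1) := by
    intro g K hK
    have h1 : Tendsto (fun r : ℝ => K / r) atTop (𝓝 0) := tendsto_const_nhds.div_atTop tendsto_id
    rw [tendsto_iff_norm_sub_tendsto_zero]
    refine squeeze_zero' (Eventually.of_forall fun _ => norm_nonneg _) ?_ h1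
    filter_upwards [hK, eventually_gt_atTop 0] with r hr hr0
    have h2 : (g r).re / r - 1 = (g r - r).re / r := by
      rw [Complex.sub_re, Complex.ofReal_re]
      field_simp
    rw [h2, norm_div, Real.norm_eq_abs r, abs_of_pos hr0]
    exact div_le_div_of_nonneg_right ((Complex.abs_re_le_norm _).trans hr) hr0.le
  -- boundedness along curves
  have hYb : ∀ Y : ℂ → ℂ, (∃ C : ℝ, 0 < C ∧ ∀ x ∈ Hp, ‖Y x - y0‖ ≤ C / ‖x‖) →
      ∃ K : ℝ, ∀ᶠ r : ℝ in atTop, ‖Y r‖ ≤ K := by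
    rintro Y ⟨C, hC, hY⟩
    refine ⟨‖y0‖ + C, ?_⟩
    filter_upwards [eventually_ge_atTop 1] with r hr
    have hr0 : 0 < r := by linarith
    have h1 := hY r (ofReal_mem hr0)
    rw [Complex.norm_real, Real.norm_eq_abs, abs_of_pos hr0] at h1
    have h2 : C / r ≤ C := div_le_self hC.le hr
    have h3 : ‖Y r‖ ≤ ‖Y r - y0‖ + ‖y0‖ := by
      have := norm_add_le (Y r - y0) y0
      simpa using this
    linarith
  have hEb : ∀ Y : ℂ → ℂ, (∀ x ∈ Hp, Y x ∈ Hp) →
      (∃ C : ℝ, 0 < C ∧ ∀ x ∈ Hp, ‖Y x - y0‖ ≤ C / ‖x‖) →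
      ∀ᶠ r : ℝ in atTop, ‖U r (Y r) - r - Y r‖ ≤ 1 := by
    intro Y hY1 hY2
    have h1 := (hlim Y hY1 hY2).eventually (gt_mem_nhds one_pos)
    filter_upwards [h1, eventually_ge_atTop 1] with r hr hr1
    have := norm_nonneg (U r (Y r) - r - Y r)
    nlinarith
  -- step 1
  have step1 : ∀ x ∈ Hp, ∀ y ∈ Hp, x.re ≤ (U x y).re := by
    intro x1 hx1 y1 hy1
    obtain ⟨Y, hYd, hYm, hYx, hYC⟩ := curve y0 x1 y1 hy0 hx1 hy1
    obtain ⟨K, hK⟩ := hYb Y hYC
    have h1 := julia (fun x => U x (Y x)) (hcomp Y hYd hYm) (fun z hz => hpos z hz _ (hYm z hz))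
      (hratio (fun x => U x (Y x)) (1 + K) (by
        filter_upwards [hEb Y hYm hYC, hK] with r h2 h3
        have : U r (Y r) - r = (U r (Y r) - r - Y r) + Y r := by ring
        rw [this]
        exact (norm_add_le _ _).trans (by linarith))) x1 hx1
    simp only [hYx] at h1
    exact h1
  intro x1 hx1 y1 hy1
  obtain ⟨Y, hYd, hYm, hYx, hYC⟩ := curve y0 x1 y1 hy0 hx1 hy1
  have step2 : ∀ x ∈ Hp, x.re ≤ (U x (Y x) - Y x).re := by
    refine julia (fun x => U x (Y x) - Y x) ((hcomp Y hYd hYm).sub hYd) ?_ ?_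
    · intro z hz
      have := step1 (Y z) (hYm z hz) z hz
      rw [hsymm (Y z) (hYm z hz) z hz] at this
      simp only [Complex.sub_re]
      linarith
    · refine hratio (fun x => U x (Y x) - Y x) 1 ?_
      filter_upwards [hEb Y hYm hYC] with r h2
      have : U r (Y r) - Y r - r = U r (Y r) - r - Y r := by ring
      rw [this]
      exact h2
  have step3 := rigid (fun x => U x (Y x) - x - Y x)
    (((hcomp Y hYd hYm).sub differentiableOn_id).sub hYd) ?_ (hlim Y hYm hYC) x1 hx1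
  · simp only [hYx] at step3
    linear_combination step3
  · intro z hz
    have := step2 z hz
    simp only [Complex.sub_re] at this ⊢
    linarith

theorem claimB (Dy : ℂ → ℂ) (y0 : ℂ) (hy0 : y0 ∈ Hp) (hd : DifferentiableOn ℂ Dy Hp)
    (hineq : ∀ x ∈ Hp, -(x.re * ‖x + (starRingEnd ℂ) y0‖ ^ 2) ≤
      ((x + (starRingEnd ℂ) y0) * Dy x).re)
    (hlim : ∀ ε : ℝ, 0 < ε → ∃ N : ℝ, ∀ x ∈ Hp, N ≤ ‖x‖ → ‖x‖ ^ 2 * ‖Dy x‖ ≤ ε) :
    ∀ x ∈ Hp, Dy x = 0 := by
  let R : ℂ → ℂ := fun x => (x + (starRingEnd ℂ) y0) * Dy x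
  have hRd : DifferentiableOn ℂ R Hp := by
    refine DifferentiableOn.mul ?_ hd
    exact (differentiable_id.add_const _).differentiableOn
  -- decay of `R`
  have hRlim : ∀ ε : ℝ, 0 < ε → ∃ N : ℝ, ∀ x ∈ Hp, N ≤ ‖x‖ → ‖x‖ * ‖R x‖ ≤ ε := by
    intro ε hε
    obtain ⟨N, hN⟩ := hlim (ε / 2) (by linarith)
    refine ⟨max N (max ‖y0‖ 1), fun x hx hxN => ?_⟩
    have h1 : N ≤ ‖x‖ := (le_max_left _ _).trans hxN
    have h2 : ‖y0‖ ≤ ‖x‖ := (le_max_left _ _).trans ((le_max_right _ _).trans hxN)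
    have h3 := hN x hx h1
    have h4 : ‖x + (starRingEnd ℂ) y0‖ ≤ 2 * ‖x‖ := by
      refine (norm_add_le _ _).trans ?_
      rw [RCLike.norm_conj]
      linarith
    calc ‖x‖ * ‖R x‖ = ‖x‖ * (‖x + (starRingEnd ℂ) y0‖ * ‖Dy x‖) := by
          show ‖x‖ * ‖(x + (starRingEnd ℂ) y0) * Dy x‖ = _
          rw [norm_mul]
      _ ≤ ‖x‖ * ((2 * ‖x‖) * ‖Dy x‖) := by
          refine mul_le_mul_of_nonneg_left ?_ (norm_nonneg _)
          exact mul_le_mul_of_nonneg_right h4 (norm_nonneg _)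
      _ = 2 * (‖x‖ ^ 2 * ‖Dy x‖) := by ring
      _ ≤ ε := by linarith
  have hRpos : ∀ x ∈ Hp, 0 ≤ (R x).re := by
    intro x1 hx1
    have hx1' : 0 < x1.re := hx1
    by_contra hneg
    push Not at hneg
    obtain ⟨η, hη0, hη⟩ : ∃ η : ℝ, 0 < η ∧ (R x1).re < -η :=
      ⟨-(R x1).re / 2, by linarith, by linarith⟩
    obtain ⟨N0, hN0⟩ := hRlim η hη0
    obtain ⟨N, hNdef⟩ : ∃ N : ℝ, N = max (max N0 1) (‖x1‖ + 1) := ⟨_, rfl⟩
    have hNN0 : N0 ≤ N := by rw [hNdef]; exact (le_max_left _ _).trans (le_max_left _ _)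
    have hN1 : 1 ≤ N := by rw [hNdef]; exact (le_max_right _ _).trans (le_max_left _ _)
    have hNx : ‖x1‖ < N := by
      have : ‖x1‖ + 1 ≤ N := by rw [hNdef]; exact le_max_right _ _
      linarith
    obtain ⟨ε, hε0, hεx, hεη⟩ : ∃ ε : ℝ, 0 < ε ∧ ε < x1.re ∧ ε * (N + ‖y0‖) ^ 2 ≤ η := by
      have hpos : 0 < (N + ‖y0‖) ^ 2 := by positivity
      refine ⟨min (x1.re / 2) (η / (N + ‖y0‖) ^ 2), lt_min (by linarith) (by positivity),
        (min_le_left _ _).trans_lt (by linarith), ?_⟩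
      have := min_le_right (x1.re / 2) (η / (N + ‖y0‖) ^ 2)
      rw [le_div_iff₀ hpos] at this
      exact this
    let V : Set ℂ := {x | ε < x.re} ∩ ball 0 N
    have hVo : IsOpen V := (isOpen_lt continuous_const Complex.continuous_re).inter isOpen_ball
    have hVb : Bornology.IsBounded V := isBounded_ball.subset inter_subset_right
    have hVc : closure V ⊆ {x | ε ≤ x.re} ∩ closedBall 0 N := by
      refine closure_minimal ?_ ?_
      · intro x hx
        exact ⟨le_of_lt (show ε < x.re from hx.1), ball_subset_closedBall hx.2⟩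
      · exact (isClosed_le continuous_const Complex.continuous_re).inter isClosed_closedBall
    have hVH : closure V ⊆ Hp := by
      intro x hx
      have : ε ≤ x.re := (hVc hx).1
      exact lt_of_lt_of_le hε0 this
    have hexp : DiffContOnCl ℂ (fun x => Complex.exp (-R x)) V := by
      refine DifferentiableOn.diffContOnCl ?_
      exact (hRd.mono hVH).neg.cexp
    have hfr : ∀ x ∈ frontier V, ‖Complex.exp (-R x)‖ ≤ Real.exp η := by
      intro x hx
      have hxc : x ∈ closure V := hx.1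
      have hxn : x ∉ V := by
        rw [hVo.frontier_eq] at hx
        exact hx.2
      have h1 := hVc hxc
      have h1a : ε ≤ x.re := h1.1
      have h1b : ‖x‖ ≤ N := mem_closedBall_zero_iff.1 h1.2
      rw [Complex.norm_exp, Complex.neg_re]
      apply Real.exp_le_exp.2
      by_cases hre : x.re = ε
      · have h2 := hineq x (hVH hxc)
        have h3 : ‖x + (starRingEnd ℂ) y0‖ ≤ N + ‖y0‖ := by
          refine (norm_add_le _ _).trans ?_
          rw [RCLike.norm_conj]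
          linarith
        have h4 : x.re * ‖x + (starRingEnd ℂ) y0‖ ^ 2 ≤ ε * (N + ‖y0‖) ^ 2 := by
          rw [hre]
          exact mul_le_mul_of_nonneg_left (pow_le_pow_left₀ (norm_nonneg _) h3 2) hε0.le
        have h5 : -(x.re * ‖x + (starRingEnd ℂ) y0‖ ^ 2) ≤ (R x).re := h2
        linarith
      · have hlt : ε < x.re := lt_of_le_of_ne h1a (Ne.symm hre)
        have h6 : ‖x‖ = N := by
          by_contra hne
          exact hxn ⟨hlt, mem_ball_zero_iff.2 (lt_of_le_of_ne h1b hne)⟩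
        have h7 := hN0 x (hVH hxc) (by rw [h6]; exact hNN0)
        have h8 : ‖R x‖ ≤ η := by
          rw [h6] at h7
          have := norm_nonneg (R x)
          nlinarith
        have h9 : -(R x).re ≤ ‖R x‖ := (neg_le_abs _).trans (Complex.abs_re_le_norm _)
        linarith
    have h10 := Complex.norm_le_of_forall_mem_frontier_norm_le hVb hexp hfr
      (subset_closure (⟨hεx, mem_ball_zero_iff.2 hNx⟩ : x1 ∈ V))
    rw [Complex.norm_exp, Complex.neg_re] at h10
    have h11 := Real.exp_le_exp.1 h10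
    linarith
  have hR0 : ∀ x ∈ Hp, R x = 0 := by
    refine rigid R hRd hRpos ?_
    rw [Metric.tendsto_atTop]
    intro ε hε
    obtain ⟨N, hN⟩ := hRlim (ε / 2) (by linarith)
    refine ⟨max N 1, fun r hr => ?_⟩
    have hr0 : 0 < r := lt_of_lt_of_le one_pos ((le_max_right _ _).trans hr)
    have h1 := hN r (ofReal_mem hr0) (by
      rw [Complex.norm_real, Real.norm_eq_abs, abs_of_pos hr0]
      exact (le_max_left _ _).trans hr)
    rw [Complex.norm_real, Real.norm_eq_abs, abs_of_pos hr0] at h1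
    rw [dist_zero_right, norm_mul, norm_norm, Real.norm_eq_abs, abs_of_pos hr0]
    linarith
  intro x hx
  have h1 := hR0 x hx
  rcases mul_eq_zero.1 h1 with h2 | h2
  · exact absurd h2 (add_conj_ne (le_of_lt (show 0 < x.re from hx)) hy0)
  · exact h2

/-- The basic inequality for the product component. -/
theorem basic_ineq (x y D : ℂ) (hx : x ∈ Hp) (hy : y ∈ Hp) (u v : ℂ) (hu : u ∈ Hp) (hv : v ∈ Hp)
    (h1 : u + v = x + y) (h2 : u * v = x * y + D) :
    -(x.re * ‖x + (starRingEnd ℂ) y‖ ^ 2) ≤ ((x + (starRingEnd ℂ) y) * D).re := by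
  have hx' : 0 < x.re := hx
  have hy' : 0 < y.re := hy
  have hu' : 0 < u.re := hu
  have hv' : 0 < v.re := hv
  -- for `a, b` in the half plane, `Re (ab / (a+b)) > 0`
  have hpr : ∀ a b : ℂ, 0 < a.re → 0 < b.re → 0 < (a * b * (starRingEnd ℂ) (a + b)).re := by
    intro a b ha hb
    have : (a * b * (starRingEnd ℂ) (a + b)).re =
        b.re * Complex.normSq a + a.re * Complex.normSq b := by
      rw [Complex.normSq_apply, Complex.normSq_apply]
      simp only [Complex.mul_re, Complex.mul_im, Complex.conj_re, Complex.conj_im, Complex.add_re,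
        Complex.add_im]
      ring
    rw [this]
    have h3 : 0 < Complex.normSq a := Complex.normSq_pos.2 (by rintro rfl; simp at ha)
    have h4 : 0 < Complex.normSq b := Complex.normSq_pos.2 (by rintro rfl; simp at hb)
    positivity
  let τ : ℂ := Complex.I * x.im
  have hτ : τ.re = 0 := by simp [τ]
  have ha : 0 < (u - τ).re := by rw [Complex.sub_re, hτ]; linarith
  have hb : 0 < (v - τ).re := by rw [Complex.sub_re, hτ]; linarith
  have h3 := hpr _ _ ha hb
  have hxτ : x - τ = (x.re : ℂ) := by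
    apply Complex.ext <;> simp [τ]
  have e1 : (u - τ) * (v - τ) = (x.re : ℂ) * (y - τ) + D := by
    have : (u - τ) * (v - τ) = u * v - τ * (u + v) + τ ^ 2 := by ring
    rw [this, h1, h2, ← hxτ]; ring
  have e2 : (u - τ) + (v - τ) = (x.re : ℂ) + (y - τ) := by
    have : (u - τ) + (v - τ) = (u + v) - 2 * τ := by ring
    rw [this, h1, ← hxτ]; ring
  rw [e1, e2] at h3
  have e3 : (starRingEnd ℂ) ((x.re : ℂ) + (y - τ)) = x + (starRingEnd ℂ) y := by
    apply Complex.ext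
    · simp [τ]
    · simp [τ]
      ring
  rw [e3] at h3
  -- `Re ((x.re (y - τ)) (x + conj y)) ≤ x.re |x + conj y|²`
  have h4 : ((x.re : ℂ) * (y - τ) * (x + (starRingEnd ℂ) y)).re ≤
      x.re * ‖x + (starRingEnd ℂ) y‖ ^ 2 := by
    rw [← Complex.normSq_eq_norm_sq, Complex.normSq_apply]
    simp only [τ, Complex.mul_re, Complex.mul_im, Complex.sub_re, Complex.sub_im, Complex.add_re,
      Complex.add_im, Complex.conj_re, Complex.conj_im, Complex.ofReal_re, Complex.ofReal_im,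
      Complex.I_re, Complex.I_im]
    nlinarith [mul_pos hx' hx', mul_pos hx' (mul_pos hx' hx'), mul_pos (mul_pos hx' hx') hy']
  have h5 : (((x.re : ℂ) * (y - τ) + D) * (x + (starRingEnd ℂ) y)).re =
      ((x.re : ℂ) * (y - τ) * (x + (starRingEnd ℂ) y)).re + ((x + (starRingEnd ℂ) y) * D).re := by
    rw [← Complex.add_re]
    congr 1
    ring
  rw [h5] at h3
  linarith

end Pool.Agent.V1172.BK
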