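import Pool.Agent.V1172.BK.Claims
import Pool.Agent.V1172.BK.Cartan
import Pool.Agent.Helper540.Holo
import Pool.Agent.V1172.HR.Ident

/-!
The rigidity theorem in the half plane model of the symmetrized bidisc.
-/

set_option autoImplicit false

open Set Filter Topology Metric

namespace Pool.Agent.V1172.BK

/-- The half plane model of the symmetrized bidisc. -/
def GH : Set (ℂ × ℂ) := {q | ∃ x ∈ Hp, ∃ y ∈ Hp, q = (x + y, x * y)}

theorem key_identity (x y : ℂ) :
    (x + y).re * ((starRingEnd ℂ) (x + y) * (x * y)).re - (x * y).im ^ 2 =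
      x.re * y.re * ((x.re + y.re) ^ 2 + (x.im - y.im) ^ 2) := by
  simp only [Complex.mul_re, Complex.mul_im, Complex.add_re, Complex.add_im, Complex.conj_re,
    Complex.conj_im]
  ring

theorem GH_iff (S P : ℂ) :
    (S, P) ∈ GH ↔ 0 < S.re ∧ P.im ^ 2 < S.re * ((starRingEnd ℂ) S * P).re := by
  constructor
  · rintro ⟨x, hx, y, hy, h⟩
    have hx' : 0 < x.re := hx
    have hy' : 0 < y.re := hy
    obtain ⟨rfl, rfl⟩ := Prod.mk.inj h
    refine ⟨by rw [Complex.add_re]; linarith, ?_⟩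
    have h1 := key_identity x y
    have h2 : 0 < x.re * y.re * ((x.re + y.re) ^ 2 + (x.im - y.im) ^ 2) := by positivity
    linarith
  · rintro ⟨h1, h2⟩
    obtain ⟨d, hd⟩ := IsAlgClosed.exists_pow_nat_eq (S ^ 2 - 4 * P) (n := 2) (by norm_num)
    have hu : (S + d) / 2 + (S - d) / 2 = S := by ring
    have hv : (S + d) / 2 * ((S - d) / 2) = P := by
      have : (S + d) / 2 * ((S - d) / 2) = (S ^ 2 - d ^ 2) / 4 := by ring
      rw [this, hd]; ring
    obtain ⟨u, hudef⟩ : ∃ u : ℂ, u = (S + d) / 2 := ⟨_, rfl⟩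
    obtain ⟨v, hvdef⟩ : ∃ v : ℂ, v = (S - d) / 2 := ⟨_, rfl⟩
    rw [← hudef, ← hvdef] at hu hv
    have h3 := key_identity u v
    rw [hu, hv] at h3
    have h4 : 0 < u.re * v.re * ((u.re + v.re) ^ 2 + (u.im - v.im) ^ 2) := by linarith
    have h5 : 0 < u.re * v.re := by
      by_contra hneg
      push Not at hneg
      have : u.re * v.re * ((u.re + v.re) ^ 2 + (u.im - v.im) ^ 2) ≤ 0 :=
        mul_nonpos_of_nonpos_of_nonneg hneg (by positivity)
      linarith
    have h6 : 0 < u.re + v.re := by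
      rw [← Complex.add_re, hu]; exact h1
    have h7 : 0 < u.re := by
      by_contra hneg
      push Not at hneg
      have : 0 < v.re := by linarith
      nlinarith
    have h8 : 0 < v.re := by
      by_contra hneg
      push Not at hneg
      nlinarith
    exact ⟨u, h7, v, h8, by rw [hu, hv]⟩

theorem isOpen_GH : IsOpen GH := by
  have h : GH = {q : ℂ × ℂ | 0 < q.1.re} ∩
      {q : ℂ × ℂ | q.2.im ^ 2 < q.1.re * ((starRingEnd ℂ) q.1 * q.2).re} := by
    ext ⟨S, P⟩
    exact GH_iff S P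
  rw [h]
  refine IsOpen.inter (isOpen_lt continuous_const (by fun_prop)) (isOpen_lt (by fun_prop) ?_)
  have h1 : Continuous fun q : ℂ × ℂ => (starRingEnd ℂ) q.1 := Complex.continuous_conj.comp
    continuous_fst
  exact (Complex.continuous_re.comp continuous_fst).mul
    (Complex.continuous_re.comp (h1.mul continuous_snd))

/-- The slices. -/
def Sl (S : ℂ) : Set ℂ := {P | (S, P) ∈ GH}

theorem isOpen_Sl (S : ℂ) : IsOpen (Sl S) :=
  isOpen_GH.preimage (by fun_prop : Continuous fun P : ℂ => (S, P))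

theorem convex_Sl (S : ℂ) : Convex ℝ (Sl S) := by
  intro P hP Q hQ a b ha hb hab
  have hP' := (GH_iff S P).1 hP
  have hQ' := (GH_iff S Q).1 hQ
  refine (GH_iff S _).2 ⟨hP'.1, ?_⟩
  have h1 : ((starRingEnd ℂ) S * (a • P + b • Q)).re =
      a * ((starRingEnd ℂ) S * P).re + b * ((starRingEnd ℂ) S * Q).re := by
    simp only [Complex.real_smul, Complex.mul_re, Complex.mul_im, Complex.add_re, Complex.add_im,
      Complex.ofReal_re, Complex.ofReal_im, Complex.conj_re, Complex.conj_im]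
    ring
  have h2 : (a • P + b • Q).im = a * P.im + b * Q.im := by
    simp [Complex.real_smul]
  rw [h1, h2]
  have h3 : (a * P.im + b * Q.im) ^ 2 ≤ a * P.im ^ 2 + b * Q.im ^ 2 := by
    have hb' : b = 1 - a := by linarith
    subst hb'
    nlinarith [mul_nonneg ha hb, sq_nonneg (P.im - Q.im),
      mul_nonneg (mul_nonneg ha hb) (sq_nonneg (P.im - Q.im))]
  have h4 : a * P.im ^ 2 + b * Q.im ^ 2 <
      S.re * (a * ((starRingEnd ℂ) S * P).re + b * ((starRingEnd ℂ) S * Q).re) := by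
    have h5 := hP'.2
    have h6 := hQ'.2
    rcases ha.eq_or_lt with ha0 | ha0
    · have hb1 : b = 1 := by linarith
      rw [← ha0, hb1]; linarith
    · have h7 : a * P.im ^ 2 < a * (S.re * ((starRingEnd ℂ) S * P).re) :=
        mul_lt_mul_of_pos_left h5 ha0
      have h8 : b * Q.im ^ 2 ≤ b * (S.re * ((starRingEnd ℂ) S * Q).re) :=
        mul_le_mul_of_nonneg_left h6.le hb
      linarith
  linarith

theorem half_Sl (S : ℂ) (P : ℂ) (hP : P ∈ Sl S) : 0 < ((starRingEnd ℂ) S * P).re := by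
  have hP' := (GH_iff S P).1 hP
  by_contra hneg
  push Not at hneg
  have h1 : S.re * ((starRingEnd ℂ) S * P).re ≤ 0 :=
    mul_nonpos_of_nonneg_of_nonpos hP'.1.le hneg
  have h2 := sq_nonneg P.im
  linarith [hP'.2]

/-- The rigidity theorem in the half plane model. -/
theorem core (Φ : ℂ × ℂ → ℂ × ℂ) (hΦ : DifferentiableOn ℂ Φ GH) (hmaps : MapsTo Φ GH GH)
    (y0 : ℂ) (hy0 : y0 ∈ Hp)
    (hlimA : ∀ C ε : ℝ, 0 < C → 0 < ε → ∃ N : ℝ, ∀ x ∈ Hp, ∀ y ∈ Hp, N ≤ ‖x‖ →
      ‖y - y0‖ ≤ C / ‖x‖ → ‖x‖ * ‖(Φ (x + y, x * y)).1 - (x + y)‖ ≤ ε)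
    (hlimB : (∀ q ∈ GH, (Φ q).1 = q.1) → ∀ C ε : ℝ, 0 < C → 0 < ε → ∃ N : ℝ, ∀ x ∈ Hp,
      ∀ y ∈ Hp, N ≤ ‖x‖ → ‖y - y0‖ ≤ C / ‖x‖ →
        ‖x‖ ^ 2 * ‖(Φ (x + y, x * y)).2 - x * y‖ ≤ ε) :
    ∀ q ∈ GH, Φ q = q := by
  have hy0' : 0 < y0.re := hy0
  have hmem : ∀ x ∈ Hp, ∀ y ∈ Hp, (x + y, x * y) ∈ GH := fun x hx y hy => ⟨x, hx, y, hy, rfl⟩
  have hΦat : ∀ q ∈ GH, DifferentiableAt ℂ Φ q :=
    fun q hq => (hΦ q hq).differentiableAt (isOpen_GH.mem_nhds hq)
  -- Claim A
  have hU : ∀ x ∈ Hp, ∀ y ∈ Hp, (Φ (x + y, x * y)).1 = x + y := by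
    refine claimA (fun x y => (Φ (x + y, x * y)).1) y0 hy0 ?_ ?_ ?_ ?_
    · intro x _ y _
      simp only [add_comm x y, mul_comm x y]
    · intro Y hY hYm x hx
      have h1 : DifferentiableAt ℂ Y x := (hY x hx).differentiableAt (isOpen_Hp.mem_nhds hx)
      have h2 : DifferentiableAt ℂ (fun x => (x + Y x, x * Y x)) x := by fun_prop
      have h3 := (hΦat _ (hmem x hx _ (hYm x hx)))
      have h4 : DifferentiableAt ℂ (fun x => Φ (x + Y x, x * Y x)) x :=
        DifferentiableAt.comp x (f := fun x => (x + Y x, x * Y x)) h3 h2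
      exact h4.fst.differentiableWithinAt
    · intro x hx y hy
      obtain ⟨u, hu, v, hv, huv⟩ := hmaps (hmem x hx y hy)
      have hu' : 0 < u.re := hu
      have hv' : 0 < v.re := hv
      rw [huv, Complex.add_re]
      linarith
    · rintro Y hYm ⟨C, hC, hYC⟩
      rw [Metric.tendsto_atTop]
      intro ε hε
      obtain ⟨N, hN⟩ := hlimA C (ε / 2) hC (by linarith)
      refine ⟨max N 1, fun r hr => ?_⟩
      have hr0 : 0 < r := lt_of_lt_of_le one_pos ((le_max_right _ _).trans hr)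
      have hrn : ‖(r : ℂ)‖ = r := by rw [Complex.norm_real, Real.norm_eq_abs, abs_of_pos hr0]
      have h1 := hN r (ofReal_mem hr0) (Y r) (hYm _ (ofReal_mem hr0))
        (by rw [hrn]; exact (le_max_left _ _).trans hr) (hYC _ (ofReal_mem hr0))
      rw [hrn] at h1
      rw [dist_zero_right, norm_mul, norm_norm, Real.norm_eq_abs, abs_of_pos hr0]
      have h2 : (Φ ((r : ℂ) + Y r, (r : ℂ) * Y r)).1 - r - Y r =
          (Φ ((r : ℂ) + Y r, (r : ℂ) * Y r)).1 - (r + Y r) := by ring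
      rw [h2]
      linarith
  have hfst : ∀ q ∈ GH, (Φ q).1 = q.1 := by
    rintro q ⟨x, hx, y, hy, rfl⟩
    exact hU x hx y hy
  have hlimB' := hlimB hfst
  -- Claim B: `D(x, y0) = 0`
  have hD0 : ∀ x ∈ Hp, (Φ (x + y0, x * y0)).2 - x * y0 = 0 := by
    refine claimB (fun x => (Φ (x + y0, x * y0)).2 - x * y0) y0 hy0 ?_ ?_ ?_
    · intro x hx
      have h2 : DifferentiableAt ℂ (fun x : ℂ => (x + y0, x * y0)) x := by fun_prop
      have h4 : DifferentiableAt ℂ (fun x => Φ (x + y0, x * y0)) x :=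
        DifferentiableAt.comp x (f := fun x : ℂ => (x + y0, x * y0)) (hΦat _ (hmem x hx _ hy0)) h2
      have h5 : DifferentiableAt ℂ (fun x => (Φ (x + y0, x * y0)).2 - x * y0) x :=
        h4.snd.sub (by fun_prop)
      exact h5.differentiableWithinAt
    · intro x hx
      obtain ⟨u, hu, v, hv, huv⟩ := hmaps (hmem x hx y0 hy0)
      refine basic_ineq x y0 _ hx hy0 u v hu hv ?_ ?_
      · rw [← hU x hx y0 hy0, huv]
      · rw [huv]; ring
    · intro ε hε
      obtain ⟨N, hN⟩ := hlimB' 1 ε one_pos hε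
      refine ⟨max N 1, fun x hx hxN => hN x hx y0 hy0 ((le_max_left _ _).trans hxN) ?_⟩
      rw [sub_self, norm_zero]
      positivity
  -- the multiplier
  let ψ : ℂ → ℂ := fun x => (fderiv ℂ Φ (x + y0, x * y0) (0, 1)).2
  have hψd : DifferentiableOn ℂ ψ Hp := by
    intro x hx
    have h1 := Pool.Agent.Helper540.differentiableOn_fderiv_apply isOpen_GH hΦ ((0, 1) : ℂ × ℂ)
    have h2 : DifferentiableAt ℂ (fun q => fderiv ℂ Φ q ((0, 1) : ℂ × ℂ)) (x + y0, x * y0) :=
      (h1 _ (hmem x hx y0 hy0)).differentiableAt (isOpen_GH.mem_nhds (hmem x hx y0 hy0))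
    have h3 : DifferentiableAt ℂ (fun x : ℂ => (x + y0, x * y0)) x := by fun_prop
    have h4 : DifferentiableAt ℂ (fun x : ℂ => fderiv ℂ Φ (x + y0, x * y0) ((0, 1) : ℂ × ℂ)) x :=
      DifferentiableAt.comp x (f := fun x : ℂ => (x + y0, x * y0)) h2 h3
    exact h4.snd.differentiableWithinAt
  -- the slice maps
  let f : ℂ → ℂ → ℂ := fun S P => (Φ (S, P)).2
  have hfd : ∀ S, DifferentiableOn ℂ (f S) (Sl S) := by
    intro S P hP
    have h1 : DifferentiableAt ℂ (fun P : ℂ => (S, P)) P := by fun_prop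
    have h2 : DifferentiableAt ℂ (fun P : ℂ => Φ (S, P)) P :=
      DifferentiableAt.comp P (f := fun P : ℂ => (S, P)) (hΦat _ hP) h1
    exact h2.snd.differentiableWithinAt
  have hfm : ∀ S, MapsTo (f S) (Sl S) (Sl S) := by
    intro S P hP
    have h1 := hmaps hP
    have h2 := hfst _ hP
    show (S, (Φ (S, P)).2) ∈ GH
    have h3 : (S, (Φ (S, P)).2) = Φ (S, P) := Prod.ext h2.symm rfl
    rw [h3]
    exact h1
  have hfder : ∀ x ∈ Hp, deriv (f (x + y0)) (x * y0) = ψ x := by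
    intro x hx
    have h1 : HasDerivAt (fun P : ℂ => (x + y0, P)) ((0, 1) : ℂ × ℂ) (x * y0) :=
      (hasDerivAt_const (x * y0) (x + y0)).prodMk (hasDerivAt_id (x * y0))
    have h2 := (hΦat _ (hmem x hx y0 hy0)).hasFDerivAt.comp_hasDerivAt (x * y0) h1
    exact (HasFDerivAt.comp_hasDerivAt (x * y0) (hasFDerivAt_snd (𝕜 := ℂ)
      (p := Φ (x + y0, x * y0))) h2).deriv
  have hfix : ∀ x ∈ Hp, f (x + y0) (x * y0) = x * y0 := fun x hx => sub_eq_zero.1 (hD0 x hx)
  have hSne : ∀ x ∈ Hp, (starRingEnd ℂ) (x + y0) ≠ 0 := by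
    intro x hx h
    have hx' : 0 < x.re := hx
    have := congrArg Complex.re h
    simp at this
    linarith
  have hψle : ∀ x ∈ Hp, ‖ψ x‖ ≤ 1 := by
    intro x hx
    rw [← hfder x hx]
    exact cartan_deriv_le (isOpen_Sl _) (hSne x hx) (hmem x hx y0 hy0) (half_Sl _) (hfd _) (hfm _)
      (hfix x hx)
  -- the asymptotics of the multiplier
  have hψest : ∀ ε : ℝ, 0 < ε → ∃ N : ℝ, ∀ x ∈ Hp, N ≤ ‖x‖ → ‖x‖ * ‖1 - ψ x‖ ≤ ε := by
    intro ε hε
    obtain ⟨N, hN⟩ := hlimB' 1 (ε / 2) one_pos (by linarith)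
    refine ⟨max (max N 1) (max (2 * ‖y0‖) (2 / y0.re)), fun x hx hxN => ?_⟩
    have hxN1 : N ≤ ‖x‖ := (le_max_left _ _).trans ((le_max_left _ _).trans hxN)
    have hx1 : 1 ≤ ‖x‖ := (le_max_right _ _).trans ((le_max_left _ _).trans hxN)
    have hx2 : 2 * ‖y0‖ ≤ ‖x‖ := (le_max_left _ _).trans ((le_max_right _ _).trans hxN)
    have hx3 : 2 / y0.re ≤ ‖x‖ := (le_max_right _ _).trans ((le_max_right _ _).trans hxN)
    have hxpos : 0 < ‖x‖ := by linarith
    -- `k h = D(x, y0 + h)`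
    let k : ℂ → ℂ := fun h => (Φ (x + (y0 + h), x * (y0 + h))).2 - x * (y0 + h)
    have hyh : ∀ h ∈ ball (0 : ℂ) (1 / ‖x‖), y0 + h ∈ Hp := by
      intro h hh
      rw [mem_ball_zero_iff] at hh
      have h1 : 1 / ‖x‖ ≤ y0.re / 2 := by
        rw [div_le_iff₀ hxpos]
        rw [div_le_iff₀ hy0'] at hx3
        linarith
      have h2 : -h.re ≤ ‖h‖ := (neg_le_abs _).trans (Complex.abs_re_le_norm _)
      show 0 < (y0 + h).re
      rw [Complex.add_re]
      linarith
    have hkd : DifferentiableOn ℂ k (ball 0 (1 / ‖x‖)) := by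
      intro h hh
      have h2 : DifferentiableAt ℂ (fun h : ℂ => (x + (y0 + h), x * (y0 + h))) h := by fun_prop
      have h4 : DifferentiableAt ℂ (fun h => Φ (x + (y0 + h), x * (y0 + h))) h :=
        DifferentiableAt.comp h (f := fun h : ℂ => (x + (y0 + h), x * (y0 + h)))
          (hΦat _ (hmem x hx _ (hyh h hh))) h2
      have h5 : DifferentiableAt ℂ k h := h4.snd.sub (by fun_prop)
      exact h5.differentiableWithinAt
    have hk0 : k 0 = 0 := by
      simp only [k, add_zero]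
      exact hD0 x hx
    have hkm : MapsTo k (ball 0 (1 / ‖x‖)) (closedBall (k 0) (ε / 2 / ‖x‖ ^ 2)) := by
      intro h hh
      rw [hk0, mem_closedBall_zero_iff, le_div_iff₀ (by positivity), mul_comm]
      refine hN x hx (y0 + h) (hyh h hh) hxN1 ?_
      rw [add_sub_cancel_left]
      exact (mem_ball_zero_iff.1 hh).le
    have hkder := Complex.norm_deriv_le_div_of_mapsTo_ball hkd hkm (by positivity)
    have hL := (hΦat _ (hmem x hx y0 hy0)).hasFDerivAt
    set L := fderiv ℂ Φ (x + y0, x * y0) with hLdef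
    have hk' : deriv k 0 = (L (1, x)).2 - x := by
      have h1 : HasDerivAt (fun h : ℂ => (x + (y0 + h), x * (y0 + h))) ((1, x) : ℂ × ℂ) 0 := by
        have h2 : HasDerivAt (fun h : ℂ => x + (y0 + h)) 1 0 :=
          ((hasDerivAt_id (0 : ℂ)).const_add y0).const_add x
        have h3 : HasDerivAt (fun h : ℂ => x * (y0 + h)) x 0 := by
          have := ((hasDerivAt_id (0 : ℂ)).const_add y0).const_mul x
          simpa using this
        exact h2.prodMk h3
      have h4 : HasFDerivAt Φ L ((fun h : ℂ => (x + (y0 + h), x * (y0 + h))) 0) := by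
        simpa using hL
      have h5 := h4.comp_hasDerivAt (0 : ℂ) h1
      have h6 : HasDerivAt (fun h : ℂ => (Φ (x + (y0 + h), x * (y0 + h))).2) (L (1, x)).2 0 := by
        have h7 := (ContinuousLinearMap.snd ℂ ℂ ℂ).hasFDerivAt.comp_hasDerivAt (0 : ℂ) h5
        exact h7
      have h3 : HasDerivAt (fun h : ℂ => x * (y0 + h)) x 0 := by
        have := ((hasDerivAt_id (0 : ℂ)).const_add y0).const_mul x
        simpa using this
      exact (h6.sub h3).deriv
    have hx' : (L (1, y0)).2 - y0 = 0 := by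
      have h1 : HasDerivAt (fun x : ℂ => (x + y0, x * y0)) ((1, y0) : ℂ × ℂ) x := by
        have h2 : HasDerivAt (fun x : ℂ => x + y0) 1 x := (hasDerivAt_id x).add_const y0
        have h3 : HasDerivAt (fun x : ℂ => x * y0) y0 x := by
          have := (hasDerivAt_id x).mul_const y0
          simpa using this
        exact h2.prodMk h3
      have h5 := hL.comp_hasDerivAt x h1
      have h6 : HasDerivAt (fun x : ℂ => (Φ (x + y0, x * y0)).2) (L (1, y0)).2 x := by
        have h7 := (ContinuousLinearMap.snd ℂ ℂ ℂ).hasFDerivAt.comp_hasDerivAt x h5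
        exact h7
      have h3 : HasDerivAt (fun x : ℂ => x * y0) y0 x := by
        have := (hasDerivAt_id x).mul_const y0
        simpa using this
      have h7 := (h6.sub h3).deriv
      have h8 : ((fun x : ℂ => (Φ (x + y0, x * y0)).2) - fun x : ℂ => x * y0) =ᶠ[𝓝 x]
          fun _ => (0 : ℂ) := by
        filter_upwards [isOpen_Hp.mem_nhds hx] with z hz
        exact hD0 z hz
      rw [h8.deriv_eq] at h7
      rw [← h7]
      simp
    have hLdiff : (L (1, x)).2 - (L (1, y0)).2 = (x - y0) * ψ x := by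
      have h1 : ((1, x) : ℂ × ℂ) - (1, y0) = (x - y0) • ((0, 1) : ℂ × ℂ) := by
        ext <;> simp
      rw [← Prod.snd_sub, ← map_sub, h1, map_smul]
      rfl
    have hmain : (x - y0) * (1 - ψ x) = -deriv k 0 := by
      rw [hk']
      linear_combination hLdiff + hx'
    have hxy : ‖x‖ / 2 ≤ ‖x - y0‖ := by
      have := norm_sub_norm_le x y0
      linarith
    have h9 : ‖x - y0‖ * ‖1 - ψ x‖ ≤ ε / 2 / ‖x‖ ^ 2 / (1 / ‖x‖) := by
      rw [← norm_mul, hmain, norm_neg]
      exact hkder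
    have h10 : ‖x‖ / 2 * ‖1 - ψ x‖ ≤ ε / 2 / ‖x‖ ^ 2 / (1 / ‖x‖) :=
      (mul_le_mul_of_nonneg_right hxy (norm_nonneg _)).trans h9
    have h11 : ε / 2 / ‖x‖ ^ 2 / (1 / ‖x‖) = ε / 2 / ‖x‖ := by
      field_simp
    rw [h11] at h10
    have h12 : ε / 2 / ‖x‖ ≤ ε / 2 := div_le_self (by positivity) hx1
    linarith
  have hψ1 : ∀ x ∈ Hp, ψ x = 1 := by
    intro x hx
    have h1 := rigid (fun x => 1 - ψ x) (hψd.const_sub 1) ?_ ?_ x hx
    · have : (1 : ℂ) - ψ x = 0 := h1
      exact (sub_eq_zero.1 this).symm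
    · intro z hz
      show 0 ≤ (1 - ψ z).re
      rw [Complex.sub_re, Complex.one_re]
      have := (Complex.re_le_norm (ψ z)).trans (hψle z hz)
      linarith
    · rw [Metric.tendsto_atTop]
      intro ε hε
      obtain ⟨N, hN⟩ := hψest (ε / 2) (by linarith)
      refine ⟨max N 1, fun r hr => ?_⟩
      have hr0 : 0 < r := lt_of_lt_of_le one_pos ((le_max_right _ _).trans hr)
      have hrn : ‖(r : ℂ)‖ = r := by rw [Complex.norm_real, Real.norm_eq_abs, abs_of_pos hr0]
      have h1 := hN r (ofReal_mem hr0) (by rw [hrn]; exact (le_max_left _ _).trans hr)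
      rw [hrn] at h1
      rw [dist_zero_right, norm_mul, norm_norm, Real.norm_eq_abs, abs_of_pos hr0]
      linarith
  -- identity on the slices through the fixed curve
  have hslice : ∀ x ∈ Hp, ∀ P ∈ Sl (x + y0), f (x + y0) P = P := by
    intro x hx
    exact cartan_unique (isOpen_Sl _) (convex_Sl _) (hSne x hx) (hmem x hx y0 hy0) (half_Sl _)
      (hfd _) (hfm _) (hfix x hx) (by rw [hfder x hx, hψ1 x hx])
  -- the identity theorem on `Hp × Hp`
  have hprod : ∀ q ∈ Hp ×ˢ Hp, (Φ (q.1 + q.2, q.1 * q.2)).2 - q.1 * q.2 = 0 := by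
    have hopen : IsOpen (Hp ×ˢ Hp : Set (ℂ × ℂ)) := isOpen_Hp.prod isOpen_Hp
    have hcv : Convex ℝ (Hp ×ˢ Hp : Set (ℂ × ℂ)) := convex_Hp.prod convex_Hp
    have ha : ((y0 + 1, y0 + 1) : ℂ × ℂ) ∈ (Hp ×ˢ Hp : Set (ℂ × ℂ)) := by
      constructor <;>
      · show 0 < (y0 + 1).re
        rw [Complex.add_re, Complex.one_re]
        linarith
    refine Pool.Agent.V1172.HR.convex_identity hopen hcv
      (fun q : ℂ × ℂ => (Φ (q.1 + q.2, q.1 * q.2)).2 - q.1 * q.2) (fun _ => 0) ?_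
      (differentiableOn_const _) ha ?_
    · intro q hq
      have h2 : DifferentiableAt ℂ (fun q : ℂ × ℂ => (q.1 + q.2, q.1 * q.2)) q := by fun_prop
      have h4 : DifferentiableAt ℂ (fun q : ℂ × ℂ => Φ (q.1 + q.2, q.1 * q.2)) q :=
        DifferentiableAt.comp q (f := fun q : ℂ × ℂ => (q.1 + q.2, q.1 * q.2))
          (hΦat _ (hmem _ hq.1 _ hq.2)) h2
      have h5 : DifferentiableAt ℂ (fun q : ℂ × ℂ =>
          (Φ (q.1 + q.2, q.1 * q.2)).2 - q.1 * q.2) q := h4.snd.sub (by fun_prop)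
      exact h5.differentiableWithinAt
    · have h1 : ∀ᶠ q : ℂ × ℂ in 𝓝 ((y0 + 1, y0 + 1) : ℂ × ℂ), y0.re < (q.1 + q.2).re := by
        have hc : Continuous fun q : ℂ × ℂ => (q.1 + q.2).re := by fun_prop
        refine (continuousAt_const).eventually_lt hc.continuousAt ?_
        simp only [Complex.add_re, Complex.one_re]
        linarith
      filter_upwards [h1, hopen.mem_nhds ha] with q hq1 hq2
      have hx : q.1 + q.2 - y0 ∈ Hp := by
        show 0 < (q.1 + q.2 - y0).re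
        rw [Complex.sub_re]
        linarith
      have h3 := hslice _ hx (q.1 * q.2) (by
        rw [sub_add_cancel]
        exact hmem _ hq2.1 _ hq2.2)
      rw [sub_add_cancel] at h3
      exact sub_eq_zero.2 h3
  rintro q ⟨x, hx, y, hy, rfl⟩
  refine Prod.ext (hU x hx y hy) ?_
  have := hprod (x, y) ⟨hx, hy⟩
  exact sub_eq_zero.1 this

end Pool.Agent.V1172.BK
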