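import Mathlib

/-!
Tools for holomorphic functions in the right half plane.
-/

set_option autoImplicit false

open Set Filter Topology Metric

namespace Pool.Agent.V1172.BK

/-- The right half plane. -/
def Hp : Set ℂ := {z | 0 < z.re}

theorem isOpen_Hp : IsOpen Hp := isOpen_lt continuous_const Complex.continuous_re

theorem convex_Hp : Convex ℝ Hp := convex_halfSpace_re_gt 0

theorem normSq_sub_add (a b : ℂ) :
    ‖a - b‖ ^ 2 = ‖a + (starRingEnd ℂ) b‖ ^ 2 - 4 * a.re * b.re := by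
  rw [← Complex.normSq_eq_norm_sq, ← Complex.normSq_eq_norm_sq, Complex.normSq_apply,
    Complex.normSq_apply]
  simp only [Complex.sub_re, Complex.sub_im, Complex.add_re, Complex.add_im, Complex.conj_re,
    Complex.conj_im]
  ring

theorem add_conj_ne {a b : ℂ} (ha : 0 ≤ a.re) (hb : 0 < b.re) : a + (starRingEnd ℂ) b ≠ 0 := by
  intro h
  have := congrArg Complex.re h
  simp at this
  linarith

/-- Harnack's inequality in the right half plane. -/
theorem harnack (g : ℂ → ℂ) (hg : DifferentiableOn ℂ g Hp) (hpos : ∀ z ∈ Hp, 0 ≤ (g z).re)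
    (x w : ℂ) (hx : x ∈ Hp) (hw : w ∈ Hp) :
    x.re * w.re * (g w).re ≤ (g x).re * ‖x + (starRingEnd ℂ) w‖ ^ 2 := by
  have hx' : 0 < x.re := hx
  have hw' : 0 < w.re := hw
  rcases (hpos w hw).eq_or_lt with h0 | h0
  · rw [← h0, mul_zero]
    exact mul_nonneg (hpos x hx) (by positivity)
  let φ : ℂ → ℂ := fun ζ => (w + (starRingEnd ℂ) w * ζ) / (1 - ζ)
  have h1ζ : ∀ ζ ∈ ball (0 : ℂ) 1, (1 : ℂ) - ζ ≠ 0 := by
    intro ζ hζ h
    rw [mem_ball_zero_iff] at hζ
    have : ζ = 1 := (sub_eq_zero.1 h).symm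
    rw [this] at hζ
    simp at hζ
  have hφ : ∀ ζ ∈ ball (0 : ℂ) 1, φ ζ ∈ Hp := by
    intro ζ hζ
    have hne := h1ζ ζ hζ
    have hn : 0 < Complex.normSq (1 - ζ) := Complex.normSq_pos.2 hne
    rw [mem_ball_zero_iff] at hζ
    show 0 < (φ ζ).re
    have h2 : (φ ζ).re = w.re * (1 - ‖ζ‖ ^ 2) / Complex.normSq (1 - ζ) := by
      simp only [φ]
      rw [Complex.div_re]
      rw [← Complex.normSq_eq_norm_sq, Complex.normSq_apply ζ]
      simp only [Complex.add_re, Complex.mul_re, Complex.conj_re, Complex.conj_im, Complex.sub_re,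
        Complex.one_re, Complex.add_im, Complex.mul_im, Complex.sub_im, Complex.one_im]
      field_simp
      ring
    rw [h2]
    apply div_pos (mul_pos hw' _) hn
    nlinarith [norm_nonneg ζ]
  have hφd : DifferentiableOn ℂ φ (ball 0 1) := by
    intro ζ hζ
    have hne := h1ζ ζ hζ
    have : DifferentiableAt ℂ φ ζ := by
      show DifferentiableAt ℂ (fun ζ => (w + (starRingEnd ℂ) w * ζ) / (1 - ζ)) ζ
      exact DifferentiableAt.fun_div (by fun_prop) (by fun_prop) hne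
    exact this.differentiableWithinAt
  have hφ0 : φ 0 = w := by simp [φ]
  let h : ℂ → ℂ := fun ζ => (g (φ ζ) - g w) / (g (φ ζ) + (starRingEnd ℂ) (g w))
  have hne2 : ∀ ζ ∈ ball (0 : ℂ) 1, g (φ ζ) + (starRingEnd ℂ) (g w) ≠ 0 :=
    fun ζ hζ => add_conj_ne (hpos _ (hφ ζ hζ)) h0
  have hhd : DifferentiableOn ℂ h (ball 0 1) := by
    intro ζ hζ
    have hgd : DifferentiableAt ℂ g (φ ζ) :=
      (hg _ (hφ ζ hζ)).differentiableAt (isOpen_Hp.mem_nhds (hφ ζ hζ))
    have hφd' : DifferentiableAt ℂ φ ζ := (hφd ζ hζ).differentiableAt (isOpen_ball.mem_nhds hζ)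
    have hcomp : DifferentiableAt ℂ (fun ζ => g (φ ζ)) ζ := hgd.comp ζ hφd'
    exact (DifferentiableAt.fun_div (hcomp.sub_const _) (hcomp.add_const _)
      (hne2 ζ hζ)).differentiableWithinAt
  have hmaps : MapsTo h (ball 0 1) (closedBall 0 1) := by
    intro ζ hζ
    rw [mem_closedBall_zero_iff]
    simp only [h]
    rw [norm_div, div_le_one (norm_pos_iff.2 (hne2 ζ hζ))]
    apply le_of_sq_le_sq _ (norm_nonneg _)
    rw [normSq_sub_add]
    have : 0 ≤ 4 * (g (φ ζ)).re * (g w).re := by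
      have := hpos _ (hφ ζ hζ)
      positivity
    linarith
  have hh0 : h 0 = 0 := by simp [h, hφ0]
  -- apply the Schwarz lemma at `(x - w)/(x + conj w)`
  have hxw : x + (starRingEnd ℂ) w ≠ 0 := add_conj_ne hx'.le hw'
  let ζ0 : ℂ := (x - w) / (x + (starRingEnd ℂ) w)
  have hXpos : 0 < ‖x + (starRingEnd ℂ) w‖ := norm_pos_iff.2 hxw
  have hζ0 : ‖ζ0‖ < 1 := by
    simp only [ζ0]
    rw [norm_div, div_lt_one hXpos]
    apply lt_of_pow_lt_pow_left₀ 2 (norm_nonneg _)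
    rw [normSq_sub_add]
    have : 0 < 4 * x.re * w.re := by positivity
    linarith
  have hφζ0 : φ ζ0 = x := by
    simp only [φ, ζ0]
    have h3 : w + (starRingEnd ℂ) w * ((x - w) / (x + (starRingEnd ℂ) w)) =
        x * (w + (starRingEnd ℂ) w) / (x + (starRingEnd ℂ) w) := by
      field_simp; ring
    have h4 : 1 - (x - w) / (x + (starRingEnd ℂ) w) =
        (w + (starRingEnd ℂ) w) / (x + (starRingEnd ℂ) w) := by
      field_simp; ring
    have h5 : w + (starRingEnd ℂ) w ≠ 0 := add_conj_ne hw'.le hw'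
    rw [h3, h4]
    field_simp
  have hS := Complex.norm_le_norm_of_mapsTo_ball hhd hmaps hh0 hζ0
  have hA : 0 < ‖g x + (starRingEnd ℂ) (g w)‖ := norm_pos_iff.2 (add_conj_ne (hpos x hx) h0)
  have hS2 : ‖g x - g w‖ * ‖x + (starRingEnd ℂ) w‖ ≤
      ‖x - w‖ * ‖g x + (starRingEnd ℂ) (g w)‖ := by
    have h6 : h ζ0 = (g x - g w) / (g x + (starRingEnd ℂ) (g w)) := by
      simp only [h, hφζ0]
    rw [h6, norm_div] at hS
    simp only [ζ0, norm_div] at hS
    rw [div_le_div_iff₀ hA hXpos] at hS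
    exact hS
  have hS3 : ‖g x - g w‖ ^ 2 * ‖x + (starRingEnd ℂ) w‖ ^ 2 ≤
      ‖x - w‖ ^ 2 * ‖g x + (starRingEnd ℂ) (g w)‖ ^ 2 := by
    rw [← mul_pow, ← mul_pow]
    exact pow_le_pow_left₀ (by positivity) hS2 2
  rw [normSq_sub_add, normSq_sub_add] at hS3
  have hA2 : (g w).re ^ 2 ≤ ‖g x + (starRingEnd ℂ) (g w)‖ ^ 2 := by
    apply pow_le_pow_left₀ h0.le
    have h7 : (g x + (starRingEnd ℂ) (g w)).re ≤ ‖g x + (starRingEnd ℂ) (g w)‖ :=
      Complex.re_le_norm _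
    have h8 : (g x + (starRingEnd ℂ) (g w)).re = (g x).re + (g w).re := by simp
    have h9 := hpos x hx
    linarith
  have h10 : x.re * w.re * ‖g x + (starRingEnd ℂ) (g w)‖ ^ 2 ≤
      (g x).re * (g w).re * ‖x + (starRingEnd ℂ) w‖ ^ 2 := by nlinarith
  have h11 : x.re * w.re * (g w).re ^ 2 ≤
      (g x).re * (g w).re * ‖x + (starRingEnd ℂ) w‖ ^ 2 :=
    (mul_le_mul_of_nonneg_left hA2 (by positivity)).trans h10
  have h12 : (x.re * w.re * (g w).re) * (g w).re ≤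
      ((g x).re * ‖x + (starRingEnd ℂ) w‖ ^ 2) * (g w).re := by nlinarith
  exact le_of_mul_le_mul_right h12 h0

theorem ofReal_mem {r : ℝ} (hr : 0 < r) : (r : ℂ) ∈ Hp := by simpa [Hp] using hr

/-- A Julia type lemma. -/
theorem julia (g : ℂ → ℂ) (hg : DifferentiableOn ℂ g Hp) (hpos : ∀ z ∈ Hp, 0 ≤ (g z).re)
    (hlim : Tendsto (fun r : ℝ => (g r).re / r) atTop (𝓝 1)) (x : ℂ) (hx : x ∈ Hp) :
    x.re ≤ (g x).re := by
  have h1 : ∀ᶠ r : ℝ in atTop, x.re * ((g r).re / r) ≤ (g x).re * ((‖x‖ / r + 1)) ^ 2 := by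
    filter_upwards [eventually_gt_atTop 0] with r hr
    have h2 := harnack g hg hpos x r hx (ofReal_mem hr)
    rw [Complex.conj_ofReal, Complex.ofReal_re] at h2
    have h3 : ‖x + (r : ℂ)‖ ≤ ‖x‖ + r := by
      refine (norm_add_le _ _).trans ?_
      rw [Complex.norm_real, Real.norm_eq_abs, abs_of_pos hr]
    have h4 : x.re * r * (g r).re ≤ (g x).re * (‖x‖ + r) ^ 2 :=
      h2.trans (mul_le_mul_of_nonneg_left (pow_le_pow_left₀ (norm_nonneg _) h3 2) (hpos x hx))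
    have h5 : x.re * ((g r).re / r) = (x.re * r * (g r).re) / r ^ 2 := by
      field_simp
    have h6 : (g x).re * ((‖x‖ / r + 1)) ^ 2 = ((g x).re * (‖x‖ + r) ^ 2) / r ^ 2 := by
      field_simp
    rw [h5, h6]
    exact div_le_div_of_nonneg_right h4 (by positivity)
  have h7 : Tendsto (fun r : ℝ => x.re * ((g r).re / r)) atTop (𝓝 (x.re * 1)) :=
    hlim.const_mul _
  have h8 : Tendsto (fun r : ℝ => (g x).re * ((‖x‖ / r + 1)) ^ 2) atTop
      (𝓝 ((g x).re * (0 + 1) ^ 2)) := by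
    have h9 : Tendsto (fun r : ℝ => ‖x‖ / r) atTop (𝓝 0) := tendsto_const_nhds.div_atTop tendsto_id
    exact ((h9.add_const 1).pow 2).const_mul _
  have := le_of_tendsto_of_tendsto h7 h8 h1
  simpa using this

/-- Rigidity: nonnegative real part and fast radial decay. -/
theorem rigid (e : ℂ → ℂ) (he : DifferentiableOn ℂ e Hp) (hpos : ∀ z ∈ Hp, 0 ≤ (e z).re)
    (hlim : Tendsto (fun r : ℝ => r * ‖e r‖) atTop (𝓝 0)) : ∀ x ∈ Hp, e x = 0 := by
  have hre : ∀ w ∈ Hp, (e w).re = 0 := by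
    intro w hw
    have hw' : 0 < w.re := hw
    have h1 : ∀ᶠ r : ℝ in atTop, w.re * (e w).re ≤ (r * ‖e r‖) * ((‖w‖ / r + 1)) ^ 2 := by
      filter_upwards [eventually_gt_atTop 0] with r hr
      have h2 := harnack e he hpos r w (ofReal_mem hr) hw
      rw [Complex.ofReal_re] at h2
      have h3 : ‖(r : ℂ) + (starRingEnd ℂ) w‖ ≤ ‖w‖ + r := by
        refine (norm_add_le _ _).trans ?_
        rw [Complex.norm_real, Real.norm_eq_abs, abs_of_pos hr, RCLike.norm_conj]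
        linarith
      have h4 : (e r).re ≤ ‖e r‖ := Complex.re_le_norm _
      have h5 : (e r).re * ‖(r : ℂ) + (starRingEnd ℂ) w‖ ^ 2 ≤ ‖e r‖ * (‖w‖ + r) ^ 2 :=
        mul_le_mul h4 (pow_le_pow_left₀ (norm_nonneg _) h3 2) (by positivity) (norm_nonneg _)
      have h6 : (r * ‖e r‖) * ((‖w‖ / r + 1)) ^ 2 = (‖e r‖ * (‖w‖ + r) ^ 2) / r := by
        field_simp
      rw [h6, le_div_iff₀ hr]
      calc w.re * (e w).re * r = r * w.re * (e w).re := by ring
        _ ≤ _ := h2.trans h5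
    have h8 : Tendsto (fun r : ℝ => (r * ‖e r‖) * ((‖w‖ / r + 1)) ^ 2) atTop
        (𝓝 (0 * (0 + 1) ^ 2)) := by
      have h9 : Tendsto (fun r : ℝ => ‖w‖ / r) atTop (𝓝 0) :=
        tendsto_const_nhds.div_atTop tendsto_id
      exact hlim.mul ((h9.add_const 1).pow 2)
    have h10 := ge_of_tendsto h8 h1
    rw [zero_mul] at h10
    have h11 := hpos w hw
    nlinarith
  have han : AnalyticOnNhd ℂ e Hp := he.analyticOnNhd isOpen_Hp
  rcases han.is_constant_or_isOpen convex_Hp.isPreconnected with ⟨c, hc⟩ | hopen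
  · -- the constant tends to zero
    have h1 : Tendsto (fun r : ℝ => r * ‖c‖) atTop (𝓝 0) := by
      refine hlim.congr' ?_
      filter_upwards [eventually_gt_atTop 0] with r hr
      rw [hc r (ofReal_mem hr)]
    have hc0 : c = 0 := by
      by_contra hne
      have hpos : 0 < ‖c‖ := norm_pos_iff.2 hne
      have h2 : Tendsto (fun r : ℝ => r * ‖c‖) atTop atTop := tendsto_id.atTop_mul_const hpos
      exact not_tendsto_nhds_of_tendsto_atTop h2 0 h1
    intro x hx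
    rw [hc x hx, hc0]
  · exfalso
    have h1 := hopen Hp Subset.rfl isOpen_Hp
    have h2 : e 1 ∈ e '' Hp := ⟨1, by simp [Hp], rfl⟩
    obtain ⟨ε, hε, hsub⟩ := Metric.isOpen_iff.1 h1 (e 1) h2
    have h3 : e 1 + ((ε / 2 : ℝ) : ℂ) ∈ ball (e 1) ε := by
      rw [mem_ball_iff_norm, add_sub_cancel_left, Complex.norm_real, Real.norm_eq_abs,
        abs_of_pos (by linarith)]
      linarith
    obtain ⟨y, hy, hye⟩ := hsub h3
    have h4 := hre y hy
    have h5 := hre 1 (by simp [Hp])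
    rw [hye] at h4
    simp [h5] at h4
    linarith

/-- Curves with prescribed value and limit. -/
theorem curve (y0 x1 y1 : ℂ) (hy0 : y0 ∈ Hp) (hx1 : x1 ∈ Hp) (hy1 : y1 ∈ Hp) :
    ∃ Y : ℂ → ℂ, DifferentiableOn ℂ Y Hp ∧ (∀ x ∈ Hp, Y x ∈ Hp) ∧ Y x1 = y1 ∧
      ∃ C : ℝ, 0 < C ∧ ∀ x ∈ Hp, ‖Y x - y0‖ ≤ C / ‖x‖ := by
  have hy0' : 0 < y0.re := hy0
  have hy1' : 0 < y1.re := hy1
  have hx1' : 0 < x1.re := hx1
  obtain ⟨v1, hv1⟩ : ∃ v1 : ℂ, v1 = (y1 - y0) / (y1 + (starRingEnd ℂ) y0) := ⟨_, rfl⟩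
  have hne : y1 + (starRingEnd ℂ) y0 ≠ 0 := add_conj_ne hy1'.le hy0'
  have hv1n : ‖v1‖ < 1 := by
    rw [hv1, norm_div, div_lt_one (norm_pos_iff.2 hne)]
    apply lt_of_pow_lt_pow_left₀ 2 (norm_nonneg _)
    rw [normSq_sub_add]
    have : 0 < 4 * y1.re * y0.re := by positivity
    linarith
  -- choose `M`
  obtain ⟨M, hM0, κ, hκ0, hκ1, hMκ⟩ : ∃ M : ℝ, 0 < M ∧ ∃ κ : ℝ, 0 ≤ κ ∧ κ < 1 ∧
      ‖v1‖ * (‖x1‖ + M) ≤ κ * M := by
    refine ⟨‖x1‖ * 2 / (1 - ‖v1‖) + 1, ?_, (1 + ‖v1‖) / 2, by positivity, by linarith, ?_⟩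
    · have : 0 < 1 - ‖v1‖ := by linarith
      positivity
    · have h1 : 0 < 1 - ‖v1‖ := by linarith
      have h2 : ‖x1‖ * 2 ≤ (1 - ‖v1‖) * (‖x1‖ * 2 / (1 - ‖v1‖) + 1) := by
        rw [mul_add, mul_div_cancel₀ _ h1.ne']
        linarith
      nlinarith [norm_nonneg x1, norm_nonneg v1]
  let v : ℂ → ℂ := fun x => v1 * (x1 + M) / (x + M)
  have hxM : ∀ x ∈ Hp, x + (M : ℂ) ≠ 0 := by
    intro x hx h
    have hx' : 0 < x.re := hx
    have := congrArg Complex.re h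
    simp at this
    linarith
  have hxMn : ∀ x ∈ Hp, M ≤ ‖x + (M : ℂ)‖ := by
    intro x hx
    have hx' : 0 < x.re := hx
    have := Complex.re_le_norm (x + (M : ℂ))
    simp at this
    linarith
  have hxMn2 : ∀ x ∈ Hp, ‖x‖ ≤ ‖x + (M : ℂ)‖ := by
    intro x hx
    have hx' : 0 < x.re := hx
    apply le_of_sq_le_sq _ (norm_nonneg _)
    rw [← Complex.normSq_eq_norm_sq, ← Complex.normSq_eq_norm_sq, Complex.normSq_apply,
      Complex.normSq_apply]
    simp only [Complex.add_re, Complex.ofReal_re, Complex.add_im, Complex.ofReal_im, add_zero]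
    nlinarith
  have hvb : ∀ x ∈ Hp, ‖v x‖ ≤ κ := by
    intro x hx
    simp only [v]
    rw [norm_div, div_le_iff₀ (norm_pos_iff.2 (hxM x hx)), norm_mul]
    calc ‖v1‖ * ‖x1 + (M : ℂ)‖ ≤ ‖v1‖ * (‖x1‖ + M) := by
          refine mul_le_mul_of_nonneg_left ((norm_add_le _ _).trans ?_) (norm_nonneg _)
          rw [Complex.norm_real, Real.norm_eq_abs, abs_of_pos hM0]
      _ ≤ κ * M := hMκ
      _ ≤ κ * ‖x + (M : ℂ)‖ := mul_le_mul_of_nonneg_left (hxMn x hx) hκ0
  have h1v : ∀ x ∈ Hp, (1 : ℂ) - v x ≠ 0 := by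
    intro x hx h
    have h1 : v x = 1 := (sub_eq_zero.1 h).symm
    have h2 := hvb x hx
    rw [h1, norm_one] at h2
    linarith
  refine ⟨fun x => (y0 + (starRingEnd ℂ) y0 * v x) / (1 - v x), ?_, ?_, ?_,
    2 * y0.re * (‖v1‖ * (‖x1‖ + M)) / (1 - κ) + 1, ?_, ?_⟩
  · intro x hx
    have hv : DifferentiableAt ℂ v x := by
      show DifferentiableAt ℂ (fun x => v1 * (x1 + M) / (x + M)) x
      exact DifferentiableAt.fun_div (by fun_prop) (by fun_prop) (hxM x hx)
    exact (DifferentiableAt.fun_div ((hv.const_mul _).const_add _) (hv.const_sub _)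
      (h1v x hx)).differentiableWithinAt
  · intro x hx
    show 0 < ((y0 + (starRingEnd ℂ) y0 * v x) / (1 - v x)).re
    have hn : 0 < Complex.normSq (1 - v x) := Complex.normSq_pos.2 (h1v x hx)
    have h2 : ((y0 + (starRingEnd ℂ) y0 * v x) / (1 - v x)).re =
        y0.re * (1 - ‖v x‖ ^ 2) / Complex.normSq (1 - v x) := by
      rw [Complex.div_re]
      rw [← Complex.normSq_eq_norm_sq, Complex.normSq_apply (v x)]
      simp only [Complex.add_re, Complex.mul_re, Complex.conj_re, Complex.conj_im, Complex.sub_re,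
        Complex.one_re, Complex.add_im, Complex.mul_im, Complex.sub_im, Complex.one_im]
      field_simp
      ring
    rw [h2]
    apply div_pos (mul_pos hy0' _) hn
    nlinarith [norm_nonneg (v x), hvb x hx]
  · have hvx1 : v x1 = v1 := by
      simp only [v]
      rw [mul_div_assoc, div_self (hxM x1 hx1), mul_one]
    simp only [hvx1, hv1]
    have h3 : y0 + (starRingEnd ℂ) y0 * ((y1 - y0) / (y1 + (starRingEnd ℂ) y0)) =
        y1 * (y0 + (starRingEnd ℂ) y0) / (y1 + (starRingEnd ℂ) y0) := by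
      field_simp; ring
    have h4 : 1 - (y1 - y0) / (y1 + (starRingEnd ℂ) y0) =
        (y0 + (starRingEnd ℂ) y0) / (y1 + (starRingEnd ℂ) y0) := by
      field_simp; ring
    have h5 : y0 + (starRingEnd ℂ) y0 ≠ 0 := add_conj_ne hy0'.le hy0'
    rw [h3, h4]
    field_simp
  · have : 0 < 1 - κ := by linarith
    positivity
  · intro x hx
    have hx' : 0 < x.re := hx
    have hxn : 0 < ‖x‖ := norm_pos_iff.2 (by rintro rfl; simp at hx')
    have h1 : (y0 + (starRingEnd ℂ) y0 * v x) / (1 - v x) - y0 =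
        (2 * y0.re : ℝ) * v x / (1 - v x) := by
      have hne := h1v x hx
      have h2 : (starRingEnd ℂ) y0 + y0 = ((2 * y0.re : ℝ) : ℂ) := by
        rw [add_comm, Complex.add_conj]
      rw [← h2]
      field_simp
      ring
    rw [h1, norm_div, norm_mul, Complex.norm_real, Real.norm_eq_abs,
      abs_of_pos (by positivity : (0 : ℝ) < 2 * y0.re)]
    have h3 : 1 - κ ≤ ‖1 - v x‖ := by
      have := norm_sub_norm_le (1 : ℂ) (v x)
      rw [norm_one] at this
      linarith [hvb x hx]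
    have h4 : ‖v x‖ ≤ ‖v1‖ * (‖x1‖ + M) / ‖x‖ := by
      simp only [v]
      rw [norm_div, norm_mul]
      refine div_le_div₀ (by positivity) ?_ hxn (hxMn2 x hx)
      refine mul_le_mul_of_nonneg_left ((norm_add_le _ _).trans ?_) (norm_nonneg _)
      rw [Complex.norm_real, Real.norm_eq_abs, abs_of_pos hM0]
    have h5 : 0 < 1 - κ := by linarith
    calc 2 * y0.re * ‖v x‖ / ‖1 - v x‖ ≤
        2 * y0.re * (‖v1‖ * (‖x1‖ + M) / ‖x‖) / (1 - κ) :=
          div_le_div₀ (by positivity) (mul_le_mul_of_nonneg_left h4 (by positivity)) h5 h3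
      _ = (2 * y0.re * (‖v1‖ * (‖x1‖ + M)) / (1 - κ)) / ‖x‖ := by
          field_simp
      _ ≤ (2 * y0.re * (‖v1‖ * (‖x1‖ + M)) / (1 - κ) + 1) / ‖x‖ := by
          apply div_le_div_of_nonneg_right _ hxn.le
          linarith

end Pool.Agent.V1172.BK
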