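import Pool.Agent.V1172.BK.Core

/-!
The symmetrized bidisc and its half plane model.
-/

set_option autoImplicit false

open Set Filter Topology Metric Asymptotics

namespace Pool.Agent.V1172.BK

/-- The symmetrized bidisc. -/
def G2 : Set (ℂ × ℂ) := {q | ∃ a b : ℂ, ‖a‖ < 1 ∧ ‖b‖ < 1 ∧ q = (a + b, a * b)}

/-- From `G2` to the half plane model. -/
noncomputable def Th (q : ℂ × ℂ) : ℂ × ℂ :=
  (2 * (1 - q.2) / (1 - q.1 + q.2), (1 + q.1 + q.2) / (1 - q.1 + q.2))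

/-- From the half plane model to `G2`. -/
noncomputable def Xi (q : ℂ × ℂ) : ℂ × ℂ :=
  (2 * (q.2 - 1) / (1 + q.1 + q.2), (1 - q.1 + q.2) / (1 + q.1 + q.2))

theorem Xi_ne {q : ℂ × ℂ} (hq : q ∈ GH) : 1 + q.1 + q.2 ≠ 0 := by
  obtain ⟨x, hx, y, hy, rfl⟩ := hq
  have hx' : 0 < x.re := hx
  have hy' : 0 < y.re := hy
  have h : 1 + (x + y) + x * y = (1 + x) * (1 + y) := by ring
  show 1 + (x + y) + x * y ≠ 0
  rw [h]
  apply mul_ne_zero
  · intro h; have := congrArg Complex.re h; simp at this; linarith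
  · intro h; have := congrArg Complex.re h; simp at this; linarith

theorem Th_ne {q : ℂ × ℂ} (hq : q ∈ G2) : 1 - q.1 + q.2 ≠ 0 := by
  obtain ⟨a, b, ha, hb, rfl⟩ := hq
  have h : 1 - (a + b) + a * b = (1 - a) * (1 - b) := by ring
  show 1 - (a + b) + a * b ≠ 0
  rw [h]
  apply mul_ne_zero
  · intro h; rw [← sub_eq_zero.1 h] at ha; simp at ha
  · intro h; rw [← sub_eq_zero.1 h] at hb; simp at hb

theorem cayley_inv {x : ℂ} (hx : x ∈ Hp) : ‖(x - 1) / (x + 1)‖ < 1 := by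
  have hx' : 0 < x.re := hx
  have hne : x + 1 ≠ 0 := by
    intro h; have := congrArg Complex.re h; simp at this; linarith
  rw [norm_div, div_lt_one (norm_pos_iff.2 hne)]
  apply lt_of_pow_lt_pow_left₀ 2 (norm_nonneg _)
  rw [normSq_sub_add]
  simp
  exact hx'

theorem cayley_fwd {a : ℂ} (ha : ‖a‖ < 1) : (1 + a) / (1 - a) ∈ Hp := by
  have hne : 1 - a ≠ 0 := by
    intro h; rw [← sub_eq_zero.1 h] at ha; simp at ha
  have hn : 0 < Complex.normSq (1 - a) := Complex.normSq_pos.2 hne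
  show 0 < ((1 + a) / (1 - a)).re
  have h2 : ((1 + a) / (1 - a)).re = (1 - ‖a‖ ^ 2) / Complex.normSq (1 - a) := by
    rw [Complex.div_re, ← Complex.normSq_eq_norm_sq, Complex.normSq_apply a]
    simp only [Complex.add_re, Complex.sub_re, Complex.one_re, Complex.add_im, Complex.sub_im,
      Complex.one_im]
    field_simp
    ring
  rw [h2]
  apply div_pos _ hn
  nlinarith [norm_nonneg a]

theorem Xi_formula {x y : ℂ} (hx : x ∈ Hp) (hy : y ∈ Hp) :
    Xi (x + y, x * y) = ((x - 1) / (x + 1) + (y - 1) / (y + 1),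
      (x - 1) / (x + 1) * ((y - 1) / (y + 1))) := by
  have hx' : 0 < x.re := hx
  have hy' : 0 < y.re := hy
  have h1 : x + 1 ≠ 0 := by intro h; have := congrArg Complex.re h; simp at this; linarith
  have h2 : y + 1 ≠ 0 := by intro h; have := congrArg Complex.re h; simp at this; linarith
  have h : 1 + (x + y) + x * y = (x + 1) * (y + 1) := by ring
  unfold Xi
  simp only
  rw [h]
  ext
  · simp only
    field_simp
    ring
  · simp only
    field_simp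
    ring

theorem Xi_mem {q : ℂ × ℂ} (hq : q ∈ GH) : Xi q ∈ G2 := by
  obtain ⟨x, hx, y, hy, rfl⟩ := hq
  exact ⟨_, _, cayley_inv hx, cayley_inv hy, Xi_formula hx hy⟩

theorem Th_mem {q : ℂ × ℂ} (hq : q ∈ G2) : Th q ∈ GH := by
  have hne := Th_ne hq
  obtain ⟨a, b, ha, hb, rfl⟩ := hq
  refine ⟨_, cayley_fwd ha, _, cayley_fwd hb, ?_⟩
  have h1 : 1 - a ≠ 0 := by intro h; rw [← sub_eq_zero.1 h] at ha; simp at ha
  have h2 : 1 - b ≠ 0 := by intro h; rw [← sub_eq_zero.1 h] at hb; simp at hb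
  have h : 1 - (a + b) + a * b = (1 - a) * (1 - b) := by ring
  unfold Th
  simp only
  rw [h]
  ext
  · simp only
    field_simp
    ring
  · simp only
    field_simp
    ring

theorem Xi_Th {q : ℂ × ℂ} (h : 1 - q.1 + q.2 ≠ 0) : Xi (Th q) = q := by
  obtain ⟨s, p⟩ := q
  simp only at h
  have h1 : 1 + 2 * (1 - p) / (1 - s + p) + (1 + s + p) / (1 - s + p) = 4 / (1 - s + p) := by
    field_simp; ring
  unfold Xi Th
  simp only
  rw [h1]
  ext
  · simp only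
    field_simp
    ring
  · simp only
    field_simp
    ring

theorem Th_Xi {q : ℂ × ℂ} (h : 1 + q.1 + q.2 ≠ 0) : Th (Xi q) = q := by
  obtain ⟨s, p⟩ := q
  simp only at h
  have h1 : 1 - 2 * (p - 1) / (1 + s + p) + (1 - s + p) / (1 + s + p) = 4 / (1 + s + p) := by
    field_simp; ring
  unfold Xi Th
  simp only
  rw [h1]
  ext
  · simp only
    field_simp
    ring
  · simp only
    field_simp
    ring

theorem isOpen_G2 : IsOpen G2 := by
  have h : G2 = {q : ℂ × ℂ | 1 - q.1 + q.2 ≠ 0} ∩ Th ⁻¹' GH := by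
    ext q
    constructor
    · intro hq
      exact ⟨Th_ne hq, Th_mem hq⟩
    · rintro ⟨h1, h2⟩
      rw [← Xi_Th h1]
      exact Xi_mem h2
  have ho : IsOpen {q : ℂ × ℂ | 1 - q.1 + q.2 ≠ 0} := isOpen_ne_fun (by fun_prop) (by fun_prop)
  rw [h]
  refine ContinuousOn.isOpen_inter_preimage ?_ ho isOpen_GH
  intro q hq
  have hne : 1 - q.1 + q.2 ≠ 0 := hq
  refine ContinuousAt.continuousWithinAt ?_
  unfold Th
  refine ContinuousAt.prodMk ?_ ?_
  · exact ContinuousAt.div (by fun_prop) (by fun_prop) hne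
  · exact ContinuousAt.div (by fun_prop) (by fun_prop) hne

theorem Th_diff {q : ℂ × ℂ} (hne : 1 - q.1 + q.2 ≠ 0) : DifferentiableAt ℂ Th q := by
  have h : DifferentiableAt ℂ (fun q : ℂ × ℂ => (1 - q.1 + q.2)⁻¹) q :=
    DifferentiableAt.fun_inv (by fun_prop) hne
  have h1 : Th = fun q : ℂ × ℂ => (2 * (1 - q.2) * (1 - q.1 + q.2)⁻¹,
      (1 + q.1 + q.2) * (1 - q.1 + q.2)⁻¹) := by
    ext q <;> simp only [Th, div_eq_mul_inv]
  rw [h1]
  fun_prop

theorem Xi_diff {q : ℂ × ℂ} (hne : 1 + q.1 + q.2 ≠ 0) : DifferentiableAt ℂ Xi q := by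
  have h : DifferentiableAt ℂ (fun q : ℂ × ℂ => (1 + q.1 + q.2)⁻¹) q :=
    DifferentiableAt.fun_inv (by fun_prop) hne
  have h1 : Xi = fun q : ℂ × ℂ => (2 * (q.2 - 1) * (1 + q.1 + q.2)⁻¹,
      (1 - q.1 + q.2) * (1 + q.1 + q.2)⁻¹) := by
    ext q <;> simp only [Xi, div_eq_mul_inv]
  rw [h1]
  fun_prop

/-- The rigidity theorem at the boundary points `(1 + λ, λ)`. -/
theorem bk_one (lam : ℂ) (hlam : ‖lam‖ < 1) (F : ℂ × ℂ → ℂ × ℂ) (hF : DifferentiableOn ℂ F G2)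
    (hm : MapsTo F G2 G2)
    (hBK : ∀ η : ℝ, 0 < η → ∃ δ > 0, ∀ z ∈ G2, ‖z - (1 + lam, lam)‖ < δ →
      ‖F z - z‖ ≤ η * ‖z - (1 + lam, lam)‖ ^ 3) : ∀ z ∈ G2, F z = z := by
  obtain ⟨y0, hy0def⟩ : ∃ y0 : ℂ, y0 = (1 + lam) / (1 - lam) := ⟨_, rfl⟩
  have hy0 : y0 ∈ Hp := by rw [hy0def]; exact cayley_fwd hlam
  have hy0' : 0 < y0.re := hy0
  have h1lam : 1 - lam ≠ 0 := by intro h; rw [← sub_eq_zero.1 h] at hlam; simp at hlam
  have hlam_eq : lam = (y0 - 1) / (y0 + 1) := by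
    have h1 : y0 + 1 ≠ 0 := by intro h; have := congrArg Complex.re h; simp at this; linarith
    rw [eq_div_iff h1, hy0def]
    field_simp
    ring
  let Φ : ℂ × ℂ → ℂ × ℂ := fun q => Th (F (Xi q))
  have hΦd : DifferentiableOn ℂ Φ GH := by
    intro q hq
    have h1 := Xi_diff (Xi_ne hq)
    have h2 : DifferentiableAt ℂ F (Xi q) :=
      (hF _ (Xi_mem hq)).differentiableAt (isOpen_G2.mem_nhds (Xi_mem hq))
    have h3 : DifferentiableAt ℂ Th (F (Xi q)) := Th_diff (Th_ne (hm (Xi_mem hq)))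
    have h4 : DifferentiableAt ℂ (fun q => F (Xi q)) q := DifferentiableAt.comp q (f := Xi) h2 h1
    exact (DifferentiableAt.comp q (f := fun q => F (Xi q)) h3 h4).differentiableWithinAt
  have hΦm : MapsTo Φ GH GH := fun q hq => Th_mem (hm (Xi_mem hq))
  -- the main estimates
  have key : ∀ C θ : ℝ, 0 < C → 0 < θ → ∃ N : ℝ, 1 ≤ N ∧ ∀ x ∈ Hp, ∀ y ∈ Hp, N ≤ ‖x‖ →
      ‖y - y0‖ ≤ C / ‖x‖ →
      ‖F (Xi (x + y, x * y)) - Xi (x + y, x * y)‖ ≤ θ / ‖x‖ ^ 3 := by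
    intro C θ hC hθ
    obtain ⟨K, hKdef⟩ : ∃ K : ℝ, K = 2 + 2 * C := ⟨_, rfl⟩
    have hK : 0 < K := by rw [hKdef]; positivity
    obtain ⟨δ, hδ, hδF⟩ := hBK (θ / K ^ 3) (by positivity)
    refine ⟨K / δ + 1, by have := div_pos hK hδ; linarith, fun x hx y hy hxN hyx => ?_⟩
    have hx' : 0 < x.re := hx
    have hy' : 0 < y.re := hy
    have hxpos : 0 < ‖x‖ := lt_of_lt_of_le (by have := div_pos hK hδ; linarith) hxN
    have hx1 : x + 1 ≠ 0 := by intro h; have := congrArg Complex.re h; simp at this; linarith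
    have hy1 : y + 1 ≠ 0 := by intro h; have := congrArg Complex.re h; simp at this; linarith
    have hy01 : y0 + 1 ≠ 0 := by intro h; have := congrArg Complex.re h; simp at this; linarith
    have hge : ∀ w : ℂ, 0 < w.re → 1 ≤ ‖w + 1‖ := by
      intro w hw
      have := Complex.re_le_norm (w + 1)
      simp at this
      linarith
    have hgx : ‖x‖ ≤ ‖x + 1‖ := by
      apply le_of_sq_le_sq _ (norm_nonneg _)
      rw [← Complex.normSq_eq_norm_sq, ← Complex.normSq_eq_norm_sq, Complex.normSq_apply,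
        Complex.normSq_apply]
      simp only [Complex.add_re, Complex.one_re, Complex.add_im, Complex.one_im, add_zero]
      nlinarith
    -- the two coordinates
    have hd1 : ‖(x - 1) / (x + 1) - 1‖ ≤ 2 / ‖x‖ := by
      have : (x - 1) / (x + 1) - 1 = -2 / (x + 1) := by field_simp; ring
      rw [this, norm_div, norm_neg, Complex.norm_ofNat]
      exact div_le_div_of_nonneg_left (by norm_num) hxpos hgx
    have hd2 : ‖(y - 1) / (y + 1) - lam‖ ≤ 2 * C / ‖x‖ := by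
      have h1 : (y - 1) / (y + 1) - lam = 2 * (y - y0) / ((y + 1) * (y0 + 1)) := by
        rw [hlam_eq]; field_simp; ring
      rw [h1, norm_div, norm_mul, norm_mul, Complex.norm_ofNat]
      have h2 : 1 ≤ ‖y + 1‖ * ‖y0 + 1‖ := by
        have := hge y hy'
        have := hge y0 hy0'
        nlinarith
      calc 2 * ‖y - y0‖ / (‖y + 1‖ * ‖y0 + 1‖) ≤ 2 * ‖y - y0‖ / 1 :=
            div_le_div_of_nonneg_left (by positivity) one_pos h2
        _ ≤ 2 * C / ‖x‖ := by rw [div_one, mul_div_assoc]; linarith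
    have hmem : Xi (x + y, x * y) ∈ G2 := Xi_mem ⟨x, hx, y, hy, rfl⟩
    have hdist : ‖Xi (x + y, x * y) - (1 + lam, lam)‖ ≤ K / ‖x‖ := by
      rw [Xi_formula hx hy, Prod.norm_def, max_le_iff]
      have hsum : 2 / ‖x‖ + 2 * C / ‖x‖ = K / ‖x‖ := by rw [hKdef, add_div]
      constructor
      · have h1 : (((x - 1) / (x + 1) + (y - 1) / (y + 1),
            (x - 1) / (x + 1) * ((y - 1) / (y + 1))) - (1 + lam, lam) : ℂ × ℂ).1 =
            ((x - 1) / (x + 1) - 1) + ((y - 1) / (y + 1) - lam) := by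
          simp only [Prod.fst_sub]; ring
        rw [h1]
        exact (norm_add_le _ _).trans (by linarith)
      · have h1 : (((x - 1) / (x + 1) + (y - 1) / (y + 1),
            (x - 1) / (x + 1) * ((y - 1) / (y + 1))) - (1 + lam, lam) : ℂ × ℂ).2 =
            ((x - 1) / (x + 1) - 1) * ((y - 1) / (y + 1)) + ((y - 1) / (y + 1) - lam) := by
          simp only [Prod.snd_sub]; ring
        rw [h1]
        refine (norm_add_le _ _).trans ?_
        rw [norm_mul]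
        have h2 : ‖(x - 1) / (x + 1) - 1‖ * ‖(y - 1) / (y + 1)‖ ≤ 2 / ‖x‖ * 1 :=
          mul_le_mul hd1 (cayley_inv hy).le (norm_nonneg _) (by positivity)
        linarith
    have hlt : K / ‖x‖ < δ := by
      rw [div_lt_iff₀ hxpos]
      have h1 : K / δ < ‖x‖ := by linarith
      rw [div_lt_iff₀ hδ] at h1
      linarith
    refine (hδF _ hmem (hdist.trans_lt hlt)).trans ?_
    calc θ / K ^ 3 * ‖Xi (x + y, x * y) - (1 + lam, lam)‖ ^ 3 ≤
        θ / K ^ 3 * (K / ‖x‖) ^ 3 :=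
          mul_le_mul_of_nonneg_left (pow_le_pow_left₀ (norm_nonneg _) hdist 3) (by positivity)
      _ = θ / ‖x‖ ^ 3 := by field_simp
  -- more precise consequences
  have key2 : ∀ C θ : ℝ, 0 < C → 0 < θ → ∃ N : ℝ, 1 ≤ N ∧ ∀ x ∈ Hp, ∀ y ∈ Hp, N ≤ ‖x‖ →
      ‖y - y0‖ ≤ C / ‖x‖ →
      ∃ s p s' p' : ℂ, Xi (x + y, x * y) = (s, p) ∧ F (s, p) = (s', p') ∧ (s', p') ∈ G2 ∧
        ‖p‖ ≤ 1 ∧ 1 - s + p = 4 / (1 + (x + y) + x * y) ∧ ‖1 - s + p‖ ≤ 4 ∧
        ‖p' - p‖ ≤ θ / ‖x‖ ^ 3 ∧ ‖(1 - s' + p') - (1 - s + p)‖ ≤ 2 * θ / ‖x‖ ^ 3 ∧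
        2 / ((1 + ‖y0‖ + C) * ‖x‖) ≤ ‖1 - s + p‖ ∧
        1 / ((1 + ‖y0‖ + C) * ‖x‖) ≤ ‖1 - s' + p'‖ := by
    intro C θ hC hθ
    obtain ⟨Yc, hYdef⟩ : ∃ Yc : ℝ, Yc = 1 + ‖y0‖ + C := ⟨_, rfl⟩
    have hY : 0 < Yc := by rw [hYdef]; positivity
    obtain ⟨N, hN1, hN⟩ := key C θ hC hθ
    refine ⟨max N (2 * θ * Yc + 1), hN1.trans (le_max_left _ _), fun x hx y hy hxN hyx => ?_⟩
    have hx' : 0 < x.re := hx
    have hy' : 0 < y.re := hy
    have hxN1 : N ≤ ‖x‖ := (le_max_left _ _).trans hxN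
    have hxN2 : 2 * θ * Yc + 1 ≤ ‖x‖ := (le_max_right _ _).trans hxN
    have hx1 : 1 ≤ ‖x‖ := hN1.trans hxN1
    have hxpos : 0 < ‖x‖ := by linarith
    have hest := hN x hx y hy hxN1 hyx
    have hq : (x + y, x * y) ∈ GH := ⟨x, hx, y, hy, rfl⟩
    obtain ⟨s, p, hsp⟩ : ∃ s p : ℂ, Xi (x + y, x * y) = (s, p) := ⟨_, _, rfl⟩
    obtain ⟨s', p', hsp'⟩ : ∃ s' p' : ℂ, F (s, p) = (s', p') := ⟨_, _, rfl⟩
    have hmem : (s, p) ∈ G2 := by rw [← hsp]; exact Xi_mem hq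
    have hmem' : (s', p') ∈ G2 := by rw [← hsp']; exact hm hmem
    rw [hsp, hsp'] at hest
    rw [Prod.norm_def, max_le_iff] at hest
    have hes : ‖s' - s‖ ≤ θ / ‖x‖ ^ 3 := hest.1
    have hep : ‖p' - p‖ ≤ θ / ‖x‖ ^ 3 := hest.2
    have hp1 : ‖p‖ ≤ 1 := by
      obtain ⟨a, b, ha, hb, hab⟩ := hmem
      have : p = a * b := (Prod.mk.inj hab).2
      rw [this, norm_mul]
      nlinarith [norm_nonneg a, norm_nonneg b]
    have ht : 1 - s + p = 4 / (1 + (x + y) + x * y) := by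
      have hne := Xi_ne hq
      simp only at hne
      have h1 : s = 2 * (x * y - 1) / (1 + (x + y) + x * y) := by
        have := congrArg Prod.fst hsp; exact this.symm
      have h2 : p = (1 - (x + y) + x * y) / (1 + (x + y) + x * y) := by
        have := congrArg Prod.snd hsp; exact this.symm
      rw [h1, h2]
      field_simp
      ring
    have hprod : 1 + (x + y) + x * y = (x + 1) * (y + 1) := by ring
    have hge : ∀ w : ℂ, 0 < w.re → 1 ≤ ‖w + 1‖ := by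
      intro w hw
      have := Complex.re_le_norm (w + 1)
      simp at this
      linarith
    have hden1 : 1 ≤ ‖x + 1‖ * ‖y + 1‖ := by
      have := hge x hx'
      have := hge y hy'
      nlinarith
    have htn : ‖1 - s + p‖ = 4 / (‖x + 1‖ * ‖y + 1‖) := by
      rw [ht, hprod, norm_div, norm_mul, Complex.norm_ofNat]
    have ht4 : ‖1 - s + p‖ ≤ 4 := by
      rw [htn]
      exact div_le_self (by norm_num) hden1
    have htdiff : ‖(1 - s' + p') - (1 - s + p)‖ ≤ 2 * θ / ‖x‖ ^ 3 := by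
      have : (1 - s' + p') - (1 - s + p) = (p' - p) - (s' - s) := by ring
      rw [this]
      refine (norm_sub_le _ _).trans ?_
      have : 2 * θ / ‖x‖ ^ 3 = θ / ‖x‖ ^ 3 + θ / ‖x‖ ^ 3 := by ring
      linarith
    have htlow : 2 / (Yc * ‖x‖) ≤ ‖1 - s + p‖ := by
      rw [htn]
      have h1 : ‖x + 1‖ ≤ 2 * ‖x‖ := by
        refine (norm_add_le _ _).trans ?_
        rw [norm_one]; linarith
      have h2 : ‖y + 1‖ ≤ Yc := by
        have h3 : C / ‖x‖ ≤ C := div_le_self hC.le hx1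
        have h4 : ‖y‖ ≤ ‖y - y0‖ + ‖y0‖ := by
          have := norm_add_le (y - y0) y0
          simpa using this
        refine (norm_add_le _ _).trans ?_
        rw [norm_one, hYdef]; linarith
      have h5 : ‖x + 1‖ * ‖y + 1‖ ≤ 2 * ‖x‖ * Yc :=
        mul_le_mul h1 h2 (norm_nonneg _) (by positivity)
      calc 2 / (Yc * ‖x‖) = 4 / (2 * ‖x‖ * Yc) := by field_simp; ring
        _ ≤ 4 / (‖x + 1‖ * ‖y + 1‖) := div_le_div_of_nonneg_left (by norm_num) (by linarith) h5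
    have htlow' : 1 / (Yc * ‖x‖) ≤ ‖1 - s' + p'‖ := by
      have h1 : 2 * θ / ‖x‖ ^ 3 ≤ 1 / (Yc * ‖x‖) := by
        rw [div_le_div_iff₀ (by positivity) (by positivity)]
        have h2 : 2 * θ * Yc ≤ ‖x‖ := by linarith
        have h3 : ‖x‖ ≤ ‖x‖ ^ 2 := by nlinarith
        calc 2 * θ * (Yc * ‖x‖) = (2 * θ * Yc) * ‖x‖ := by ring
          _ ≤ ‖x‖ ^ 2 * ‖x‖ := mul_le_mul_of_nonneg_right (h2.trans h3) hxpos.le
          _ = 1 * ‖x‖ ^ 3 := by ring
      have h4 : ‖1 - s + p‖ ≤ ‖1 - s' + p'‖ + ‖(1 - s' + p') - (1 - s + p)‖ := by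
        have := norm_sub_le (1 - s' + p') ((1 - s' + p') - (1 - s + p))
        rwa [sub_sub_cancel] at this
      have h5 : 2 / (Yc * ‖x‖) = 1 / (Yc * ‖x‖) + 1 / (Yc * ‖x‖) := by ring
      linarith
    rw [← hYdef]
    exact ⟨s, p, s', p', hsp, hsp', hmem', hp1, ht, ht4, hep, htdiff, htlow, htlow'⟩
  have hcore := core Φ hΦd hΦm y0 hy0 ?_ ?_
  · intro z hz
    have h1 := hcore (Th z) (Th_mem hz)
    have h2 : Th (F z) = Th z := by
      have h3 : Φ (Th z) = Th (F (Xi (Th z))) := rfl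
      rw [h3, Xi_Th (Th_ne hz)] at h1
      exact h1
    rw [← Xi_Th (Th_ne (hm hz)), h2, Xi_Th (Th_ne hz)]
  · -- first component
    intro C ε hC hε
    obtain ⟨Yc, hYdef⟩ : ∃ Yc : ℝ, Yc = 1 + ‖y0‖ + C := ⟨_, rfl⟩
    have hY : 0 < Yc := by rw [hYdef]; positivity
    obtain ⟨N, hN1, hN⟩ := key2 C (ε / (8 * Yc ^ 2)) hC (by positivity)
    refine ⟨N, fun x hx y hy hxN hyx => ?_⟩
    have hx1 : 1 ≤ ‖x‖ := hN1.trans hxN
    have hxpos : 0 < ‖x‖ := by linarith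
    obtain ⟨s, p, s', p', h1, h2, h3, h4, h5, h6, h7, h8, h9, h10⟩ := hN x hx y hy hxN hyx
    rw [← hYdef] at h9 h10
    set θ := ε / (8 * Yc ^ 2) with hθdef
    have hθ : 0 < θ := by positivity
    have hq : (x + y, x * y) ∈ GH := ⟨x, hx, y, hy, rfl⟩
    obtain ⟨t, htdef⟩ : ∃ t : ℂ, t = 1 - s + p := ⟨_, rfl⟩
    obtain ⟨t', htdef'⟩ : ∃ t' : ℂ, t' = 1 - s' + p' := ⟨_, rfl⟩
    rw [← htdef] at h5 h6 h8 h9
    rw [← htdef'] at h8 h10
    have ht0 : 0 < ‖t‖ := lt_of_lt_of_le (by positivity) h9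
    have ht0' : 0 < ‖t'‖ := lt_of_lt_of_le (by positivity) h10
    have htne : t ≠ 0 := norm_pos_iff.1 ht0
    have htne' : t' ≠ 0 := norm_pos_iff.1 ht0'
    have hΦ1 : (Φ (x + y, x * y)).1 = 2 * (1 - p') / t' := by
      show (Th (F (Xi (x + y, x * y)))).1 = _
      rw [h1, h2, htdef']; rfl
    have hS : x + y = 2 * (1 - p) / t := by
      have : Th (Xi (x + y, x * y)) = (x + y, x * y) := Th_Xi (Xi_ne hq)
      rw [h1] at this
      rw [htdef]
      exact (congrArg Prod.fst this).symm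
    have hdiff : (Φ (x + y, x * y)).1 - (x + y) =
        2 * (-(p' - p) * t - (1 - p) * (t' - t)) / (t * t') := by
      rw [hΦ1, hS]
      field_simp
      ring
    rw [hdiff, norm_div, norm_mul, norm_mul, Complex.norm_ofNat]
    have h1p : ‖1 - p‖ ≤ 2 := by
      refine (norm_sub_le _ _).trans ?_
      rw [norm_one]; linarith
    have hnum : ‖-(p' - p) * t - (1 - p) * (t' - t)‖ ≤ 8 * θ / ‖x‖ ^ 3 := by
      refine (norm_sub_le _ _).trans ?_
      rw [norm_mul, norm_mul, norm_neg]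
      have e1 : ‖p' - p‖ * ‖t‖ ≤ θ / ‖x‖ ^ 3 * 4 :=
        mul_le_mul h7 h6 (norm_nonneg _) (by positivity)
      have e2 : ‖1 - p‖ * ‖t' - t‖ ≤ 2 * (2 * θ / ‖x‖ ^ 3) :=
        mul_le_mul h1p h8 (norm_nonneg _) (by norm_num)
      have e3 : θ / ‖x‖ ^ 3 * 4 + 2 * (2 * θ / ‖x‖ ^ 3) = 8 * θ / ‖x‖ ^ 3 := by ring
      linarith
    have hden : 2 / (Yc * ‖x‖) * (1 / (Yc * ‖x‖)) ≤ ‖t‖ * ‖t'‖ :=
      mul_le_mul h9 h10 (by positivity) (norm_nonneg _)
    calc ‖x‖ * (2 * ‖-(p' - p) * t - (1 - p) * (t' - t)‖ / (‖t‖ * ‖t'‖)) ≤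
        ‖x‖ * (2 * (8 * θ / ‖x‖ ^ 3) / (2 / (Yc * ‖x‖) * (1 / (Yc * ‖x‖)))) := by
          refine mul_le_mul_of_nonneg_left ?_ hxpos.le
          exact div_le_div₀ (by positivity) (mul_le_mul_of_nonneg_left hnum (by norm_num))
            (by positivity) hden
      _ = 8 * θ * Yc ^ 2 := by field_simp
      _ = ε := by rw [hθdef]; field_simp
      _ ≤ ε := le_rfl
  · -- second component
    intro hfst C ε hC hε
    obtain ⟨Yc, hYdef⟩ : ∃ Yc : ℝ, Yc = 1 + ‖y0‖ + C := ⟨_, rfl⟩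
    have hY : 0 < Yc := by rw [hYdef]; positivity
    obtain ⟨N, hN1, hN⟩ := key2 C (ε / (8 * Yc ^ 2)) hC (by positivity)
    refine ⟨max N (2 * Yc), fun x hx y hy hxN hyx => ?_⟩
    have hxN1 : N ≤ ‖x‖ := (le_max_left _ _).trans hxN
    have hxN2 : 2 * Yc ≤ ‖x‖ := (le_max_right _ _).trans hxN
    have hx1 : 1 ≤ ‖x‖ := hN1.trans hxN1
    have hxpos : 0 < ‖x‖ := by linarith
    obtain ⟨s, p, s', p', h1, h2, h3, h4, h5, h6, h7, h8, h9, h10⟩ := hN x hx y hy hxN1 hyx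
    rw [← hYdef] at h9 h10
    set θ := ε / (8 * Yc ^ 2) with hθdef
    have hθ : 0 < θ := by positivity
    have hq : (x + y, x * y) ∈ GH := ⟨x, hx, y, hy, rfl⟩
    obtain ⟨t, htdef⟩ : ∃ t : ℂ, t = 1 - s + p := ⟨_, rfl⟩
    obtain ⟨t', htdef'⟩ : ∃ t' : ℂ, t' = 1 - s' + p' := ⟨_, rfl⟩
    rw [← htdef] at h5 h6 h8 h9
    rw [← htdef'] at h8 h10
    have ht0 : 0 < ‖t‖ := lt_of_lt_of_le (by positivity) h9
    have ht0' : 0 < ‖t'‖ := lt_of_lt_of_le (by positivity) h10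
    have htne : t ≠ 0 := norm_pos_iff.1 ht0
    have htne' : t' ≠ 0 := norm_pos_iff.1 ht0'
    have hΦ1 : (Φ (x + y, x * y)).1 = 2 * (1 - p') / t' := by
      show (Th (F (Xi (x + y, x * y)))).1 = _
      rw [h1, h2, htdef']; rfl
    have hΦ2 : (Φ (x + y, x * y)).2 = (1 + s' + p') / t' := by
      show (Th (F (Xi (x + y, x * y)))).2 = _
      rw [h1, h2, htdef']; rfl
    have hTX : Th (Xi (x + y, x * y)) = (x + y, x * y) := Th_Xi (Xi_ne hq)
    rw [h1] at hTX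
    have hS : x + y = 2 * (1 - p) / t := by
      rw [htdef]; exact (congrArg Prod.fst hTX).symm
    have hP : x * y = (1 + s + p) / t := by
      rw [htdef]; exact (congrArg Prod.snd hTX).symm
    have hSS : 2 * (1 - p') / t' = x + y := by rw [← hΦ1]; exact hfst _ hq
    have hS' : 2 * (1 - p') = (x + y) * t' := by
      rw [← hSS]; field_simp
    have hS2 : 2 * (1 - p) = (x + y) * t := by
      rw [hS]; field_simp
    have htt : (x + y) * (t' - t) = -2 * (p' - p) := by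
      linear_combination hS2 - hS'
    have hxy : ‖x‖ / 2 ≤ ‖x + y‖ := by
      have e1 : ‖y‖ ≤ Yc := by
        have h3 : C / ‖x‖ ≤ C := div_le_self hC.le hx1
        have h4 : ‖y‖ ≤ ‖y - y0‖ + ‖y0‖ := by
          have := norm_add_le (y - y0) y0
          simpa using this
        rw [hYdef]; linarith
      have e2 : ‖x‖ ≤ ‖x + y‖ + ‖y‖ := by
        have := norm_sub_le (x + y) y
        rwa [add_sub_cancel_right] at this
      linarith
    have httn : ‖t' - t‖ ≤ 4 * θ / ‖x‖ ^ 4 := by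
      have e1 : ‖x‖ / 2 * ‖t' - t‖ ≤ 2 * (θ / ‖x‖ ^ 3) := by
        calc ‖x‖ / 2 * ‖t' - t‖ ≤ ‖x + y‖ * ‖t' - t‖ :=
              mul_le_mul_of_nonneg_right hxy (norm_nonneg _)
          _ = ‖-2 * (p' - p)‖ := by rw [← norm_mul, htt]
          _ = 2 * ‖p' - p‖ := by rw [norm_mul, norm_neg, Complex.norm_ofNat]
          _ ≤ 2 * (θ / ‖x‖ ^ 3) := by linarith
      have e2 : 4 * θ / ‖x‖ ^ 4 = 2 * (θ / ‖x‖ ^ 3) / (‖x‖ / 2) := by field_simp; ring
      rw [e2, le_div_iff₀ (by positivity)]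
      linarith
    have hdiff : (Φ (x + y, x * y)).2 - x * y = -4 * (t' - t) / (t * t') := by
      have e1 : (1 + s' + p') / t' = 4 / t' - (x + y) - 1 := by
        rw [← hSS, htdef']
        have : 1 - s' + p' ≠ 0 := by rw [← htdef']; exact htne'
        field_simp
        ring
      have e2 : (1 + s + p) / t = 4 / t - (x + y) - 1 := by
        rw [hS, htdef]
        have : 1 - s + p ≠ 0 := by rw [← htdef]; exact htne
        field_simp
        ring
      rw [hΦ2, hP, e1, e2]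
      field_simp
      ring
    rw [hdiff, norm_div, norm_mul, norm_mul, norm_neg, Complex.norm_ofNat]
    have hden : 2 / (Yc * ‖x‖) * (1 / (Yc * ‖x‖)) ≤ ‖t‖ * ‖t'‖ :=
      mul_le_mul h9 h10 (by positivity) (norm_nonneg _)
    calc ‖x‖ ^ 2 * (4 * ‖t' - t‖ / (‖t‖ * ‖t'‖)) ≤
        ‖x‖ ^ 2 * (4 * (4 * θ / ‖x‖ ^ 4) / (2 / (Yc * ‖x‖) * (1 / (Yc * ‖x‖)))) := by
          refine mul_le_mul_of_nonneg_left ?_ (by positivity)
          exact div_le_div₀ (by positivity) (mul_le_mul_of_nonneg_left httn (by norm_num))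
            (by positivity) hden
      _ = 8 * θ * Yc ^ 2 := by field_simp; ring
      _ = ε := by rw [hθdef]; field_simp
      _ ≤ ε := le_rfl

end Pool.Agent.V1172.BK
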